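import Mathlib

/-!
# Augmentation ideals of group rings: basic definitions
-/

namespace Pool.Agent.Helper66.AI

open MonoidAlgebra

section defs

variable (P : Type*) [Field P] (H : Type*) [Group H]

/-- The augmentation map `∑ a_h h ↦ ∑ a_h` of the group ring `P[H]`. -/
noncomputable def aug : MonoidAlgebra P H →ₐ[P] P :=
  MonoidAlgebra.lift P P H (1 : H →* P)

/-- The augmentation ideal of the group ring `P[H]`: the kernel of the augmentation map. -/
noncomputable def augIdeal : Ideal (MonoidAlgebra P H) :=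
  RingHom.ker (aug P H)

/-- The augmentation ideal `A` of `P[H]`, considered as a ring in its own right, is simple:
`A * A ≠ 0`, and the only additive subgroups `I ⊆ A` with `A I ⊆ I` and `I A ⊆ I`
are `0` and `A`. -/
def AugSimple : Prop :=
  (∃ a ∈ augIdeal P H, ∃ b ∈ augIdeal P H, a * b ≠ 0) ∧
  ∀ I : AddSubgroup (MonoidAlgebra P H), I ≤ (augIdeal P H).toAddSubgroup →
    (∀ r ∈ augIdeal P H, ∀ i ∈ I, r * i ∈ I ∧ i * r ∈ I) →
    I = ⊥ ∨ I = (augIdeal P H).toAddSubgroup

end defs

variable {P : Type*} [Field P] {H : Type*} [Group H]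

theorem mem_augIdeal {x : MonoidAlgebra P H} :
    x ∈ augIdeal P H ↔ aug P H x = 0 := Iff.rfl

@[simp] theorem aug_of (g : H) : aug P H (of P H g) = 1 := by
  rw [aug, lift_of, MonoidHom.one_apply]

theorem of_sub_one_mem (g : H) : (of P H g - 1 : MonoidAlgebra P H) ∈ augIdeal P H := by
  rw [mem_augIdeal, map_sub, map_one, aug_of, sub_self]

theorem mem_augIdeal_mul_right {x : MonoidAlgebra P H} (hx : x ∈ augIdeal P H)
    (y : MonoidAlgebra P H) : x * y ∈ augIdeal P H := by
  rw [mem_augIdeal] at hx ⊢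
  rw [map_mul, hx, zero_mul]

theorem mem_augIdeal_mul_left {x : MonoidAlgebra P H} (hx : x ∈ augIdeal P H)
    (y : MonoidAlgebra P H) : y * x ∈ augIdeal P H := by
  rw [mem_augIdeal] at hx ⊢
  rw [map_mul, hx, mul_zero]

theorem eq_sum (x : MonoidAlgebra P H) :
    x = ∑ g ∈ x.coeff.support, x.coeff g • of P H g := by
  conv_lhs => rw [← MonoidAlgebra.sum_coeff_single x, Finsupp.sum]
  refine Finset.sum_congr rfl fun g _ => ?_
  rw [of_apply, smul_single, smul_eq_mul, mul_one]

theorem aug_eq_sum (x : MonoidAlgebra P H) :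
    aug P H x = ∑ g ∈ x.coeff.support, x.coeff g := by
  conv_lhs => rw [eq_sum x]
  rw [map_sum]
  refine Finset.sum_congr rfl fun g _ => ?_
  rw [map_smul, aug_of, smul_eq_mul, mul_one]

theorem of_ne_zero (g : H) : (of P H g : MonoidAlgebra P H) ≠ 0 := by
  rw [of_apply]; simp

theorem of_sub_one_ne_zero {g : H} (hg : g ≠ 1) : (of P H g - 1 : MonoidAlgebra P H) ≠ 0 := by
  intro h
  rw [sub_eq_zero, ← (of P H).map_one] at h
  exact hg (of_injective h)

/-- If an ideal contains all `g - 1`, then it contains the augmentation ideal. -/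
theorem augIdeal_le {I : AddSubgroup (MonoidAlgebra P H)}
    (hl : ∀ r : MonoidAlgebra P H, ∀ i ∈ I, r * i ∈ I)
    (h : ∀ g : H, (of P H g - 1 : MonoidAlgebra P H) ∈ I) {x : MonoidAlgebra P H}
    (hx : x ∈ augIdeal P H) : x ∈ I := by
  have h1 : x = ∑ g ∈ x.coeff.support, (algebraMap P (MonoidAlgebra P H) (x.coeff g)) *
      (of P H g - 1) := by
    have h2 : ∑ g ∈ x.coeff.support, (algebraMap P (MonoidAlgebra P H) (x.coeff g)) *
      (of P H g - 1) = ∑ g ∈ x.coeff.support, x.coeff g • of P H g -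
        ∑ g ∈ x.coeff.support, algebraMap P (MonoidAlgebra P H) (x.coeff g) := by
      rw [← Finset.sum_sub_distrib]
      refine Finset.sum_congr rfl fun g _ => ?_
      rw [mul_sub, mul_one, Algebra.smul_def]
    rw [h2, ← eq_sum, ← map_sum, ← aug_eq_sum, mem_augIdeal.1 hx, map_zero, sub_zero]
  rw [h1]
  exact sum_mem fun g _ => hl _ _ (h g)

/-- In an infinite group, nonzero elements are not annihilated by the augmentation ideal
from the left. -/
theorem exists_mul_ne_zero [Infinite H] {x : MonoidAlgebra P H} (hx : x ≠ 0) :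
    ∃ g : H, (of P H g - 1) * x ≠ 0 := by
  classical
  obtain ⟨g, hg⟩ := Infinite.exists_notMem_finset
    ((x.coeff.support ×ˢ x.coeff.support).image fun p => p.1 * p.2⁻¹)
  refine ⟨g, fun h => ?_⟩
  rw [sub_mul, one_mul, sub_eq_zero] at h
  obtain ⟨k, hk⟩ : ∃ k, k ∈ x.coeff.support := by
    rw [← Finset.nonempty_def, Finset.nonempty_iff_ne_empty]
    intro h0
    exact hx (coeff_eq_zero.1 (Finsupp.support_eq_empty.1 h0))
  have h2 : (of P H g * x).coeff k = x.coeff k := by rw [h]
  rw [of_apply, coeff_single_mul_eq_mul_coeff (g⁻¹ * k) (fun m _ => by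
    constructor
    · rintro rfl; group
    · rintro rfl; group), one_mul] at h2
  apply hg
  rw [Finset.mem_image]
  refine ⟨(k, g⁻¹ * k), ?_, by group⟩
  rw [Finset.mem_product]
  refine ⟨hk, ?_⟩
  rw [Finsupp.mem_support_iff] at hk ⊢
  rw [h2]; exact hk

/-- In an infinite group, nonzero elements are not annihilated by the augmentation ideal
from the right. -/
theorem exists_mul_ne_zero' [Infinite H] {x : MonoidAlgebra P H} (hx : x ≠ 0) :
    ∃ g : H, x * (of P H g - 1) ≠ 0 := by
  classical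
  obtain ⟨g, hg⟩ := Infinite.exists_notMem_finset
    ((x.coeff.support ×ˢ x.coeff.support).image fun p => p.1⁻¹ * p.2)
  refine ⟨g, fun h => ?_⟩
  rw [mul_sub, mul_one, sub_eq_zero] at h
  obtain ⟨k, hk⟩ : ∃ k, k ∈ x.coeff.support := by
    rw [← Finset.nonempty_def, Finset.nonempty_iff_ne_empty]
    intro h0
    exact hx (coeff_eq_zero.1 (Finsupp.support_eq_empty.1 h0))
  have h2 : (x * of P H g).coeff k = x.coeff k := by rw [h]
  rw [of_apply, coeff_mul_single_eq_coeff_mul (k * g⁻¹) (fun m _ => by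
    constructor
    · rintro rfl; group
    · rintro rfl; group), mul_one] at h2
  apply hg
  rw [Finset.mem_image]
  refine ⟨(k * g⁻¹, k), ?_, by group⟩
  rw [Finset.mem_product]
  refine ⟨?_, hk⟩
  rw [Finsupp.mem_support_iff] at hk ⊢
  rw [h2]; exact hk

/-- For infinite `H`, simplicity of the ring `A(PH)` follows if every nonzero ideal of `PH`
contains `A(PH)`. -/
theorem augSimple_of [Infinite H]
    (h : ∀ I : AddSubgroup (MonoidAlgebra P H), (∀ r : MonoidAlgebra P H, ∀ i ∈ I, r * i ∈ I) →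
      (∀ r : MonoidAlgebra P H, ∀ i ∈ I, i * r ∈ I) → I ≠ ⊥ →
      ∀ x ∈ augIdeal P H, x ∈ I) : AugSimple P H := by
  classical
  refine ⟨?_, fun J hJ hJr => ?_⟩
  · obtain ⟨g, hg⟩ := exists_ne (1 : H)
    obtain ⟨k, hk⟩ := exists_mul_ne_zero (of_sub_one_ne_zero (P := P) hg)
    exact ⟨_, of_sub_one_mem k, _, of_sub_one_mem g, hk⟩
  · by_cases hJ0 : J = ⊥
    · exact Or.inl hJ0
    right
    obtain ⟨x, hxJ, hx0⟩ : ∃ x ∈ J, x ≠ 0 := by
      by_contra hcon
      push Not at hcon
      apply hJ0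
      rw [eq_bot_iff]
      intro x hx
      exact (AddSubgroup.mem_bot).2 (hcon x hx)
    let S : Set (MonoidAlgebra P H) := {z | ∃ a ∈ augIdeal P H, ∃ y ∈ J, ∃ b ∈ augIdeal P H,
      z = a * y * b}
    let J' : AddSubgroup (MonoidAlgebra P H) := AddSubgroup.closure S
    have hJ'J : J' ≤ J := by
      rw [AddSubgroup.closure_le]
      rintro z ⟨a, ha, y, hy, b, hb, rfl⟩
      exact (hJr b hb _ (hJr a ha y hy).1).2
    have hl : ∀ r : MonoidAlgebra P H, ∀ i ∈ J', r * i ∈ J' := by
      intro r i hi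
      induction hi using AddSubgroup.closure_induction with
      | mem z hz =>
        obtain ⟨a, ha, y, hy, b, hb, rfl⟩ := hz
        refine AddSubgroup.subset_closure ⟨r * a, mem_augIdeal_mul_left ha r, y, hy, b, hb, ?_⟩
        simp only [mul_assoc]
      | zero => rw [mul_zero]; exact J'.zero_mem
      | add u v _ _ hu hv => rw [mul_add]; exact J'.add_mem hu hv
      | neg u _ hu => rw [mul_neg]; exact J'.neg_mem hu
    have hr : ∀ r : MonoidAlgebra P H, ∀ i ∈ J', i * r ∈ J' := by
      intro r i hi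
      induction hi using AddSubgroup.closure_induction with
      | mem z hz =>
        obtain ⟨a, ha, y, hy, b, hb, rfl⟩ := hz
        refine AddSubgroup.subset_closure ⟨a, ha, y, hy, b * r, mem_augIdeal_mul_right hb r, ?_⟩
        simp only [mul_assoc]
      | zero => rw [zero_mul]; exact J'.zero_mem
      | add u v _ _ hu hv => rw [add_mul]; exact J'.add_mem hu hv
      | neg u _ hu => rw [neg_mul]; exact J'.neg_mem hu
    have hne : J' ≠ ⊥ := by
      obtain ⟨g, hg⟩ := exists_mul_ne_zero hx0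
      obtain ⟨k, hk⟩ := exists_mul_ne_zero' hg
      intro h0
      apply hk
      have : (of P H g - 1) * x * (of P H k - 1) ∈ J' :=
        AddSubgroup.subset_closure ⟨_, of_sub_one_mem g, x, hxJ, _, of_sub_one_mem k, rfl⟩
      rw [h0] at this
      exact (AddSubgroup.mem_bot).1 this
    refine le_antisymm hJ fun y hy => hJ'J (h J' hl hr hne y hy)

/-- If the ring `A(PH)` is simple, then every ideal of `PH` which contains a nonzero element of
`A(PH)` contains `A(PH)`. -/
theorem AugSimple.le (h : AugSimple P H) (I : AddSubgroup (MonoidAlgebra P H))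
    (hl : ∀ r : MonoidAlgebra P H, ∀ i ∈ I, r * i ∈ I)
    (hr : ∀ r : MonoidAlgebra P H, ∀ i ∈ I, i * r ∈ I)
    {x : MonoidAlgebra P H} (hxI : x ∈ I) (hx0 : x ≠ 0) (hx : x ∈ augIdeal P H)
    {y : MonoidAlgebra P H} (hy : y ∈ augIdeal P H) : y ∈ I := by
  rcases h.2 (I ⊓ (augIdeal P H).toAddSubgroup) inf_le_right (fun r hr' i hi =>
    ⟨⟨hl r i hi.1, mem_augIdeal_mul_left hi.2 r⟩, ⟨hr r i hi.1, mem_augIdeal_mul_right hi.2 r⟩⟩)
    with h1 | h1
  · exfalso
    have : x ∈ I ⊓ (augIdeal P H).toAddSubgroup := ⟨hxI, hx⟩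
    rw [h1] at this
    exact hx0 ((AddSubgroup.mem_bot).1 this)
  · have : y ∈ (augIdeal P H).toAddSubgroup := hy
    rw [← h1] at this
    exact this.1

/-- If `A(PH)` is a simple ring, then `H` is a simple group. -/
theorem AugSimple.isSimpleGroup (h : AugSimple P H) : IsSimpleGroup H := by
  have hnt : Nontrivial H := by
    by_contra hcon
    rw [not_nontrivial_iff_subsingleton] at hcon
    obtain ⟨a, ha, b, hb, hab⟩ := h.1
    apply hab
    have h0 : a ∈ (⊥ : AddSubgroup (MonoidAlgebra P H)) := by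
      refine augIdeal_le (I := ⊥) ?_ ?_ ha
      · intro r i hi
        rw [(AddSubgroup.mem_bot).1 hi, mul_zero]; exact AddSubgroup.zero_mem _
      · intro g
        rw [Subsingleton.elim g 1, map_one, sub_self]; exact AddSubgroup.zero_mem _
    rw [(AddSubgroup.mem_bot).1 h0, zero_mul]
  refine ⟨fun N hN => ?_⟩
  by_cases hN0 : N = ⊥
  · exact Or.inl hN0
  right
  obtain ⟨n, hn, hn1⟩ : ∃ n ∈ N, n ≠ 1 := by
    by_contra hcon
    push Not at hcon
    exact hN0 (eq_bot_iff.2 fun x hx => Subgroup.mem_bot.2 (hcon x hx))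
  let F : MonoidAlgebra P H →ₐ[P] MonoidAlgebra P (H ⧸ N) :=
    MonoidAlgebra.lift P (MonoidAlgebra P (H ⧸ N)) H
      ((of P (H ⧸ N)).comp (QuotientGroup.mk' N))
  have hF : ∀ g : H, F (of P H g) = of P (H ⧸ N) (QuotientGroup.mk g) := by
    intro g
    simp only [F, lift_of]
    rfl
  let I : AddSubgroup (MonoidAlgebra P H) := (RingHom.ker F).toAddSubgroup
  have hker : ∀ x, x ∈ I ↔ F x = 0 := fun x => Iff.rfl
  rw [eq_top_iff]
  intro g _
  have hg : (of P H g - 1 : MonoidAlgebra P H) ∈ I := by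
    refine h.le I ?_ ?_ (x := of P H n - 1) ?_ (of_sub_one_ne_zero hn1) (of_sub_one_mem n)
      (of_sub_one_mem g)
    · intro r i hi
      rw [hker] at hi ⊢
      rw [map_mul, hi, mul_zero]
    · intro r i hi
      rw [hker] at hi ⊢
      rw [map_mul, hi, zero_mul]
    · rw [hker, map_sub, hF, map_one, (QuotientGroup.eq_one_iff n).2 hn, map_one, sub_self]
  rw [hker, map_sub, hF, map_one, sub_eq_zero, ← (of P (H ⧸ N)).map_one] at hg
  exact (QuotientGroup.eq_one_iff g).1 (of_injective hg)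

end Pool.Agent.Helper66.AI
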