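import Pool.Agent.Helper66.AI.Basic

/-!
# Products of elements `g - 1` and permutation modules
-/

namespace Pool.Agent.Helper66.AI

open MonoidAlgebra

variable {P : Type*} [Field P] {H : Type*} [Group H]

/-- For an element `g` of infinite order `g - 1` is not a left zero divisor. -/
theorem of_sub_one_mul_ne_zero {g : H} (hg : orderOf g = 0) {y : MonoidAlgebra P H}
    (hy : y ≠ 0) : (of P H g - 1) * y ≠ 0 := by
  intro h
  rw [sub_mul, one_mul, sub_eq_zero] at h
  obtain ⟨k, hk⟩ : ∃ k, k ∈ y.coeff.support := by
    rw [← Finset.nonempty_def, Finset.nonempty_iff_ne_empty]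
    intro h0
    exact hy (coeff_eq_zero.1 (Finsupp.support_eq_empty.1 h0))
  have h2 : ∀ m, y.coeff (g * m) = y.coeff m := by
    intro m
    conv_lhs => rw [← h]
    rw [of_apply, coeff_single_mul_eq_mul_coeff m (fun m' _ => mul_right_inj g), one_mul]
  have h3 : ∀ n : ℕ, y.coeff (g ^ n * k) = y.coeff k := by
    intro n
    induction n with
    | zero => rw [pow_zero, one_mul]
    | succ n ih => rw [pow_succ', mul_assoc, h2, ih]
  have h4 : Function.Injective (fun n : ℕ => g ^ n * k) := by
    intro a b hab
    have : g ^ a = g ^ b := mul_right_cancel hab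
    exact injective_pow_iff_not_isOfFinOrder.2 (orderOf_eq_zero_iff.1 hg) this
  exact (Set.infinite_range_of_injective h4) (y.coeff.support.finite_toSet.subset (by
    rintro _ ⟨n, rfl⟩
    rw [Finset.mem_coe, Finsupp.mem_support_iff]
    dsimp only
    rw [h3]
    exact Finsupp.mem_support_iff.1 hk))

/-- The product of the `g - 1`, for `g` in the list. -/
noncomputable def prd (P : Type*) [Field P] (l : List H) : MonoidAlgebra P H :=
  (l.map fun g => of P H g - 1).prod

theorem prd_ne_zero_of_orderOf (l : List H) (hl : ∀ g ∈ l, orderOf g = 0) :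
    prd P l ≠ 0 := by
  induction l with
  | nil => simp [prd]
  | cons g l ih =>
    have : prd P (g :: l) = (of P H g - 1) * prd P l := by simp [prd]
    rw [this]
    exact of_sub_one_mul_ne_zero (hl g (List.mem_cons_self ..))
      (ih fun g' hg' => hl g' (List.mem_cons_of_mem _ hg'))

theorem prd_ne_zero_of_ne {g h : H} (hg : g ≠ 1) (hh : h ≠ 1) (hgh : g ≠ h) :
    prd P [g, h] ≠ 0 := by
  classical
  intro h0
  have h1 : prd P [g, h] = of P H (g * h) - of P H g - of P H h + 1 := by
    simp only [prd, List.map_cons, List.map_nil, List.prod_cons, List.prod_nil, mul_one,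
      map_mul]
    noncomm_ring
  have h2 : (prd P [g, h]).coeff g = 0 := by rw [h0]; rfl
  rw [h1] at h2
  have h3 : g * h ≠ g := by
    intro h4
    exact hh (mul_eq_left.1 h4)
  simp only [of_apply, one_def, coeff_add, coeff_sub, coeff_single, Finsupp.coe_add,
    Finsupp.coe_sub, Pi.add_apply, Pi.sub_apply, Finsupp.single_apply, if_neg h3,
    if_neg hgh.symm, if_neg hg.symm] at h2
  simp at h2

variable {X : Type*} [MulAction H X]

/-- The permutation representation of the group ring. -/
noncomputable def rho (P : Type*) [Field P] (H : Type*) [Group H] (X : Type*) [MulAction H X] :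
    MonoidAlgebra P H →ₐ[P] Module.End P (X →₀ P) :=
  MonoidAlgebra.lift P (Module.End P (X →₀ P)) H
    { toFun := fun g => Finsupp.lmapDomain P P (fun x : X => g • x)
      map_one' := by
        refine Finsupp.lhom_ext' fun x => LinearMap.ext_ring ?_
        simp
      map_mul' := by
        intro g h
        refine Finsupp.lhom_ext' fun x => LinearMap.ext_ring ?_
        simp [mul_smul] }

theorem rho_of (g : H) (x : X) (a : P) :
    rho P H X (of P H g) (Finsupp.single x a) = Finsupp.single (g • x) a := by
  rw [rho, lift_of]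
  simp

theorem rho_prd (l : List H) (hc : l.Pairwise Commute) (hfix : ∀ x : X, ∃ g ∈ l, g • x = x) :
    rho P H X (prd P l) = 0 := by
  classical
  refine Finsupp.lhom_ext' fun x => LinearMap.ext_ring ?_
  obtain ⟨g, hg, hgx⟩ := hfix x
  have h1 : prd P l = prd P (l.erase g) * (of P H g - 1) := by
    have hp : (l.map fun g => of P H g - 1).Perm
        (((l.erase g).map fun g => of P H g - 1) ++ [of P H g - 1]) := by
      have := (List.perm_cons_erase hg).map (fun g => of P H g - 1)
      refine this.trans ?_
      rw [List.map_cons]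
      exact (List.perm_append_singleton _ _).symm
    rw [prd, hp.prod_eq', List.prod_append, List.prod_singleton, prd]
    refine List.Pairwise.map _ ?_ hc
    intro a b hab
    have h2 : Commute (of P H a) (of P H b) := hab.map (of P H)
    exact (h2.sub_right (Commute.one_right _)).sub_left (Commute.one_left _)
  rw [h1, map_mul]
  simp only [LinearMap.comp_apply, Finsupp.lsingle_apply, Module.End.mul_apply, map_sub,
    map_one, LinearMap.sub_apply, rho_of, Module.End.one_apply, hgx, sub_self, map_zero,
    LinearMap.zero_apply]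

/-- If the points of `X` are covered by the fixed points of pairwise commuting elements `g`
with nonzero product of the `g - 1`, then `A(PH)` is not simple. -/
theorem not_augSimple_of_prd (hX : ∃ (h : H) (x : X), h • x ≠ x) (l : List H)
    (hc : l.Pairwise Commute) (hfix : ∀ x : X, ∃ g ∈ l, g • x = x)
    (hne : prd P l ≠ 0) : ¬ AugSimple P H := by
  intro hs
  obtain ⟨h, x, hx⟩ := hX
  let I : AddSubgroup (MonoidAlgebra P H) := (RingHom.ker (rho P H X)).toAddSubgroup
  have hker : ∀ x, x ∈ I ↔ rho P H X x = 0 := fun x => Iff.rfl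
  have hmem : (of P H h - 1 : MonoidAlgebra P H) ∈ I := by
    refine hs.le I ?_ ?_ (x := prd P l) ?_ hne ?_ (of_sub_one_mem h)
    · intro r i hi
      rw [hker] at hi ⊢
      rw [map_mul, hi, mul_zero]
    · intro r i hi
      rw [hker] at hi ⊢
      rw [map_mul, hi, zero_mul]
    · rw [hker]; exact rho_prd l hc hfix
    · obtain ⟨g, hg, _⟩ := hfix x
      obtain ⟨l₁, l₂, rfl⟩ := List.append_of_mem hg
      have : prd P (l₁ ++ g :: l₂) = prd P l₁ * ((of P H g - 1) * prd P l₂) := by
        simp [prd]
      rw [this]
      exact mem_augIdeal_mul_left (mem_augIdeal_mul_right (of_sub_one_mem g) _) _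
  rw [hker] at hmem
  have h2 := LinearMap.congr_fun hmem (Finsupp.single x 1)
  rw [map_sub, map_one, LinearMap.sub_apply, rho_of, Module.End.one_apply,
    LinearMap.zero_apply, sub_eq_zero] at h2
  exact hx ((Finsupp.single_left_inj (one_ne_zero)).1 h2)

end Pool.Agent.Helper66.AI
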