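import Mathlib

/-!
# Homomorphisms to rings with `(ρ a - 1)^2 = 0`
-/

namespace Pool.Agent.Helper66.AI

/-- The commutator `u v u⁻¹ v⁻¹`. -/
def cm {G : Type*} [Group G] (u v : G) : G := u * v * u⁻¹ * v⁻¹

section unip

variable {T : Type*} [Ring T] {G : Type*} [Group G] (ρ : G →* T)
  (h : ∀ a, (ρ a - 1) * (ρ a - 1) = 0)

include h

theorem unip_inv (a : G) : ρ a⁻¹ - 1 = -(ρ a - 1) := by
  have h1 : ρ a⁻¹ * ρ a = 1 := by rw [← map_mul, inv_mul_cancel, map_one]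
  have h2 : ρ a * (1 - (ρ a - 1)) = 1 := by
    calc ρ a * (1 - (ρ a - 1)) = 1 - (ρ a - 1) * (ρ a - 1) := by noncomm_ring
      _ = 1 := by rw [h, sub_zero]
  have h3 : ρ a⁻¹ = 1 - (ρ a - 1) := by
    calc ρ a⁻¹ = ρ a⁻¹ * (ρ a * (1 - (ρ a - 1))) := by rw [h2, mul_one]
      _ = (ρ a⁻¹ * ρ a) * (1 - (ρ a - 1)) := by rw [mul_assoc]
      _ = _ := by rw [h1, one_mul]
  rw [h3]; abel

omit h in
theorem rho_mul_sub_one (a b : G) :
    ρ (a * b) - 1 = (ρ a - 1) + (ρ b - 1) + (ρ a - 1) * (ρ b - 1) := by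
  rw [map_mul]; noncomm_ring

theorem unip_expand (a b : G) :
    (ρ a - 1) * (ρ b - 1) + (ρ b - 1) * (ρ a - 1) + (ρ b - 1) * (ρ a - 1) * (ρ b - 1) +
      (ρ a - 1) * (ρ b - 1) * (ρ a - 1) + (ρ a - 1) * (ρ b - 1) * (ρ a - 1) * (ρ b - 1) = 0 := by
  have h1 := h (a * b)
  rw [rho_mul_sub_one] at h1
  have hA := h a
  have hB := h b
  generalize ρ a - 1 = A at *
  generalize ρ b - 1 = B at *
  calc A * B + B * A + B * A * B + A * B * A + A * B * A * B =
      (A + B + A * B) * (A + B + A * B) - A * A - B * B - A * A * B - A * (B * B) := by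
        noncomm_ring
    _ = 0 := by rw [h1, hA, hB]; simp

variable (h2 : ∀ t : T, t + t = 0 → t = 0)

include h2

theorem unip_aba (a b : G) : (ρ a - 1) * (ρ b - 1) * (ρ a - 1) = 0 := by
  have e1 := unip_expand ρ h a b
  have e2 := unip_expand ρ h a⁻¹ b
  rw [unip_inv ρ h] at e2
  have hb : (1 + (ρ b - 1)) * ρ b⁻¹ = 1 := by
    rw [show 1 + (ρ b - 1) = ρ b by abel, ← map_mul, mul_inv_cancel, map_one]
  generalize ρ a - 1 = A at *
  generalize ρ b - 1 = B at *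
  have e3 : A * B * A * (1 + B) = 0 := by
    apply h2
    calc A * B * A * (1 + B) + A * B * A * (1 + B) =
        (A * B + B * A + B * A * B + A * B * A + A * B * A * B) +
        (-A * B + B * -A + B * -A * B + -A * B * -A + -A * B * -A * B) := by noncomm_ring
      _ = 0 := by rw [e1, e2, add_zero]
  calc A * B * A = A * B * A * ((1 + B) * ρ b⁻¹) := by rw [hb, mul_one]
    _ = A * B * A * (1 + B) * ρ b⁻¹ := by rw [mul_assoc (A * B * A)]
    _ = 0 := by rw [e3, zero_mul]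

theorem unip_anti (a b : G) : (ρ a - 1) * (ρ b - 1) + (ρ b - 1) * (ρ a - 1) = 0 := by
  have e1 := unip_expand ρ h a b
  rw [unip_aba ρ h h2 a b, unip_aba ρ h h2 b a, zero_mul, add_zero, add_zero, add_zero] at e1
  exact e1

theorem unip_abc (a b c : G) : (ρ a - 1) * (ρ b - 1) * (ρ c - 1) = 0 := by
  have e1 := unip_anti ρ h h2 (a * b) c
  rw [rho_mul_sub_one] at e1
  have eac := unip_anti ρ h h2 a c
  have ebc := unip_anti ρ h h2 b c
  generalize ρ a - 1 = A at *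
  generalize ρ b - 1 = B at *
  generalize ρ c - 1 = C at *
  apply h2
  calc A * B * C + A * B * C = ((A + B + A * B) * C + C * (A + B + A * B)) -
      (A * C + C * A) - (B * C + C * B) - (A * C + C * A) * B + A * (B * C + C * B) := by
        noncomm_ring
    _ = 0 := by rw [e1, eac, ebc]; simp

/-- Over a ring without elements of order two, a homomorphism `ρ` with `(ρ a - 1)^2 = 0` for
all `a` is trivial on triple commutators. -/
theorem unip_comm (a b c : G) : ρ (cm (cm a b) c) = 1 := by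
  have e : ∀ u v : G, ρ (cm u v) - 1 =
      ((ρ u - 1) * (ρ v - 1) - (ρ v - 1) * (ρ u - 1)) * ρ u⁻¹ * ρ v⁻¹ := by
    intro u v
    rw [cm]
    have h1 : ρ v * ρ u * ρ u⁻¹ * ρ v⁻¹ = 1 := by
      rw [← map_mul, ← map_mul, ← map_mul]
      rw [show v * u * u⁻¹ * v⁻¹ = 1 by group, map_one]
    calc ρ (u * v * u⁻¹ * v⁻¹) - 1 = ρ u * ρ v * ρ u⁻¹ * ρ v⁻¹ - ρ v * ρ u * ρ u⁻¹ * ρ v⁻¹ := by
          rw [h1, map_mul, map_mul, map_mul]
      _ = (ρ u * ρ v - ρ v * ρ u) * ρ u⁻¹ * ρ v⁻¹ := by noncomm_ring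
      _ = _ := by
        congr 2
        noncomm_ring
  have e1 := e (cm a b) c
  have e3 : (ρ c - 1) * (ρ (cm a b) - 1) = -((ρ (cm a b) - 1) * (ρ c - 1)) := by
    rw [eq_neg_iff_add_eq_zero, add_comm]
    exact unip_anti ρ h h2 _ _
  have e4 : (ρ c - 1) * (ρ (cm a b) - 1) = 0 := by
    rw [e a b]
    calc (ρ c - 1) * (((ρ a - 1) * (ρ b - 1) - (ρ b - 1) * (ρ a - 1)) * ρ a⁻¹ * ρ b⁻¹) =
        ((ρ c - 1) * (ρ a - 1) * (ρ b - 1) - (ρ c - 1) * (ρ b - 1) * (ρ a - 1)) *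
          ρ a⁻¹ * ρ b⁻¹ := by noncomm_ring
      _ = 0 := by
        rw [unip_abc ρ h h2, unip_abc ρ h h2]; simp
  have e5 : (ρ (cm a b) - 1) * (ρ c - 1) = 0 := by
    rw [e4] at e3
    exact neg_eq_zero.1 e3.symm
  rw [e4, e5, sub_zero, zero_mul, zero_mul, sub_eq_zero] at e1
  exact e1

end unip

/-- Over a ring of characteristic two. -/
theorem unip_two {T : Type*} [Ring T] {G : Type*} [Group G] (ρ : G →* T)
    (h : ∀ a, (ρ a - 1) * (ρ a - 1) = 0) (h2 : ∀ t : T, t + t = 0) (a : G) :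
    ρ (a * a) = 1 := by
  rw [← sub_eq_zero]
  calc ρ (a * a) - 1 = (ρ a - 1) * (ρ a - 1) + ((ρ a - 1) + (ρ a - 1)) := by
        rw [map_mul]; noncomm_ring
    _ = 0 := by rw [h, h2, add_zero]

end Pool.Agent.Helper66.AI
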