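import Pool.Agent.Helper66.AI.Homog
import Pool.Agent.Helper66.AI.Unip

/-!
# Elimination: from an element of an ideal to a chain element
-/

namespace Pool.Agent.Helper66.AI

open MonoidAlgebra

variable {P : Type*} [Field P] {H : Type*} [Group H]

/-- `z` centralizes `M`. -/
def Cen (M : Subgroup H) (z : H) : Prop := ∀ m ∈ M, m * z = z * m

theorem Cen.inv {M : Subgroup H} {z : H} (h : Cen M z) : Cen M z⁻¹ := by
  intro m hm
  have := h m hm
  calc m * z⁻¹ = z⁻¹ * (z * m) * z⁻¹ := by group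
    _ = z⁻¹ * (m * z) * z⁻¹ := by rw [this]
    _ = z⁻¹ * m := by group

/-- `b` commutes with the centralizer of `M`. -/
def Bi (M : Subgroup H) (b : MonoidAlgebra P H) : Prop :=
  ∀ z : H, Cen M z → b * of P H z = of P H z * b

theorem Bi.mono {M N : Subgroup H} (hMN : M ≤ N) {b : MonoidAlgebra P H} (h : Bi M b) :
    Bi N b := fun z hz => h z fun m hm => hz m (hMN hm)

theorem Bi.mul {M : Subgroup H} {b c : MonoidAlgebra P H} (hb : Bi M b) (hc : Bi M c) :
    Bi M (b * c) := by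
  intro z hz
  rw [mul_assoc, hc z hz, ← mul_assoc, hb z hz, mul_assoc]

theorem Bi.of_sub_one {M : Subgroup H} {c : H} (hc : c ∈ M) : Bi M (of P H c - 1) := by
  intro z hz
  rw [sub_mul, mul_sub, one_mul, mul_one, ← map_mul, ← map_mul, hz c hc]

theorem Bi.scalar (a : P) : Bi (⊥ : Subgroup H) (single 1 a : MonoidAlgebra P H) := by
  intro z _
  rw [of_apply, single_mul_single, single_mul_single, one_mul, mul_one, mul_one, one_mul]

/-- The cyclic group generated by `c` commutes with `M` and meets `M` trivially. -/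
structure IndE (c : H) (M : Subgroup H) : Prop where
  comm : ∀ m ∈ M, Commute c m
  eq_one : ∀ n : ℤ, c ^ n ∈ M → c ^ n = 1

theorem IndE.mono {c : H} {M N : Subgroup H} (h : IndE c N) (hMN : M ≤ N) : IndE c M :=
  ⟨fun m hm => h.comm m (hMN hm), fun n hn => h.eq_one n (hMN hn)⟩

theorem IndE.cen {c : H} {M : Subgroup H} (h : IndE c M) : Cen M c :=
  fun m hm => (h.comm m hm).eq.symm

theorem IndE.ind {c : H} {M : Subgroup H} (h : IndE c M) :
    Ind (Subgroup.zpowers c).subtype M := by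
  refine ⟨?_, ?_⟩
  · rintro ⟨_, ⟨n, rfl⟩⟩ m hm
    exact (h.comm m hm).zpow_left n
  · rintro ⟨_, ⟨n, rfl⟩⟩ hm
    exact Subtype.ext (h.eq_one n hm)

/-- Independent conjugate elements are conjugate by an element centralizing `M`. -/
theorem InnerHomog.pairE (hc : InnerHomog H) {M : Subgroup H} (hM : M.FG) {u v x : H}
    (hu : IndE u M) (hv : IndE v M) (huv : v = x⁻¹ * u * x) :
    ∃ y : H, v = y⁻¹ * u * y ∧ Cen M y := by
  have hfg : Group.FG (Subgroup.zpowers u) := by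
    rw [Group.fg_iff_subgroup_fg]
    exact ⟨{u}, by rw [Finset.coe_singleton, Subgroup.zpowers_eq_closure]⟩
  let g : Subgroup.zpowers u →* H :=
    ((MulAut.conj x⁻¹).toMonoidHom).comp (Subgroup.zpowers u).subtype
  have hg : ∀ k : Subgroup.zpowers u, g k = x⁻¹ * (k : H) * x := by
    intro k
    simp [g]
  have hgn : ∀ n : ℤ, x⁻¹ * u ^ n * x = v ^ n := by
    intro n
    rw [huv]
    have := map_zpow (MulAut.conj x⁻¹) u n
    simp only [MulAut.conj_apply, inv_inv] at this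
    exact this
  have hgI : Ind g M := by
    refine ⟨?_, ?_⟩
    · rintro ⟨_, ⟨n, rfl⟩⟩ m hm
      rw [hg]
      simp only [hgn]
      exact (hv.comm m hm).zpow_left n
    · rintro ⟨_, ⟨n, rfl⟩⟩ hm
      rw [hg] at hm
      simp only [hgn] at hm
      have h1 := hv.eq_one n hm
      apply Subtype.ext
      have h2 := hgn n
      rw [h1] at h2
      calc u ^ n = x * (x⁻¹ * u ^ n * x) * x⁻¹ := by group
        _ = 1 := by rw [h2]; group
  obtain ⟨y, hy, hyM⟩ := hc.pair hM hu.ind hgI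
  refine ⟨y, ?_, hyM⟩
  have := hy ⟨u, Subgroup.mem_zpowers u⟩
  rw [hg] at this
  rw [huv]
  exact this

/-- The diagonal step. -/
theorem InnerHomog.diag (hc : InnerHomog H) {K M : Subgroup H} (hK : K.FG) (hM : M.FG) {x : H}
    (hKM : ∀ k ∈ K, ∀ m ∈ M, Commute k m) (hdis : ∀ k ∈ K, k ∈ M → k = 1)
    (hx : ∀ k ∈ K ⊔ M, ∀ l ∈ K ⊔ M, Commute (x⁻¹ * k * x) l)
    (hx' : ∀ k ∈ K ⊔ M, x⁻¹ * k * x ∈ K ⊔ M → k = 1) :
    ∃ y : H, (∀ k ∈ K, y⁻¹ * k * y = k * (x⁻¹ * k * x)) ∧ Cen M y := by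
  have hfg : Group.FG K := (Group.fg_iff_subgroup_fg _).2 hK
  let g : K →* H := MonoidHom.mk' (fun k => (k : H) * (x⁻¹ * (k : H) * x)) (by
    rintro ⟨a, ha⟩ ⟨b, hb⟩
    show a * b * (x⁻¹ * (a * b) * x) = a * (x⁻¹ * a * x) * (b * (x⁻¹ * b * x))
    have h1 : x⁻¹ * a * x * b = b * (x⁻¹ * a * x) :=
      (hx a (Subgroup.mem_sup_left ha) b (Subgroup.mem_sup_left hb)).eq
    calc a * b * (x⁻¹ * (a * b) * x) = a * (b * (x⁻¹ * a * x)) * (x⁻¹ * b * x) := by group
      _ = a * (x⁻¹ * a * x * b) * (x⁻¹ * b * x) := by rw [h1]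
      _ = _ := by group)
  have hg : ∀ k : K, g k = (k : H) * (x⁻¹ * (k : H) * x) := fun k => rfl
  have hf : Ind K.subtype M :=
    ⟨fun k m hm => hKM k k.2 m hm, fun k hk => Subtype.ext (hdis k k.2 hk)⟩
  have hgI : Ind g M := by
    refine ⟨fun k m hm => ?_, fun k hk => ?_⟩
    · rw [hg]
      exact (hKM k k.2 m hm).mul_left (hx k (Subgroup.mem_sup_left k.2) m
        (Subgroup.mem_sup_right hm))
    · rw [hg] at hk
      apply Subtype.ext
      apply hx' k (Subgroup.mem_sup_left k.2)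
      have h1 : x⁻¹ * (k : H) * x = (k : H)⁻¹ * ((k : H) * (x⁻¹ * (k : H) * x)) := by group
      rw [h1]
      exact (K ⊔ M).mul_mem ((K ⊔ M).inv_mem (Subgroup.mem_sup_left k.2))
        (Subgroup.mem_sup_right hk)
  obtain ⟨y, hy, hyM⟩ := hc.pair hM hf hgI
  refine ⟨y, fun k hk => ?_, hyM⟩
  have := hy ⟨k, hk⟩
  rw [hg] at this
  exact this.symm

/-- Chain elements `a (c₁ - 1) ⋯ (c_n - 1)`. -/
inductive Chain (P : Type*) [Field P] (H : Type*) [Group H] :
    ℕ → Subgroup H → MonoidAlgebra P H → Prop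
  | base (a : P) (ha : a ≠ 0) : Chain P H 0 ⊥ (single 1 a)
  | step {n : ℕ} {M : Subgroup H} {b : MonoidAlgebra P H} (c : H) (h : Chain P H n M b)
      (hc1 : c ≠ 1) (hc : IndE c M) :
      Chain P H (n + 1) (M ⊔ Subgroup.zpowers c) (b * (of P H c - 1))

theorem fg_zpowers (c : H) : (Subgroup.zpowers c).FG :=
  ⟨{c}, by rw [Finset.coe_singleton, Subgroup.zpowers_eq_closure]⟩

theorem Chain.fg {n : ℕ} {M : Subgroup H} {b : MonoidAlgebra P H} (h : Chain P H n M b) :
    M.FG := by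
  induction h with
  | base a ha => exact Subgroup.FG.bot
  | step c h hc1 hc ih => exact ih.sup (fg_zpowers c)

theorem Chain.bi {n : ℕ} {M : Subgroup H} {b : MonoidAlgebra P H} (h : Chain P H n M b) :
    Bi M b := by
  induction h with
  | base a ha => exact Bi.scalar a
  | step c h hc1 hc ih =>
    exact (ih.mono le_sup_left).mul
      (Bi.of_sub_one (Subgroup.mem_sup_right (Subgroup.mem_zpowers c)))

/-- If `N` and `K'` commute elementwise, each element of the join is a product. -/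
theorem mem_sup_of_comm {A B : Subgroup H} (hAB : ∀ a ∈ A, ∀ b ∈ B, Commute a b) {x : H}
    (hx : x ∈ A ⊔ B) : ∃ a ∈ A, ∃ b ∈ B, x = a * b := by
  have hcomm : ∀ (a : A) (b : B), Commute (A.subtype a) (B.subtype b) :=
    fun a b => hAB a a.2 b b.2
  have h1 : (A.subtype.noncommCoprod B.subtype hcomm).range = A ⊔ B := by
    rw [MonoidHom.noncommCoprod_range, Subgroup.range_subtype, Subgroup.range_subtype]
  rw [← h1] at hx
  obtain ⟨⟨a, b⟩, rfl⟩ := hx
  exact ⟨a, a.2, b, b.2, rfl⟩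

/-- Elimination. -/
theorem elim (hc : InnerHomog H) (hs : SquareEmb H) {I : AddSubgroup (MonoidAlgebra P H)}
    (hl : ∀ r : MonoidAlgebra P H, ∀ i ∈ I, r * i ∈ I)
    (hr : ∀ r : MonoidAlgebra P H, ∀ i ∈ I, i * r ∈ I) :
    ∀ (n : ℕ) (S : Finset H) (_ : S.card = n + 1) (K N M : Subgroup H) (_ : K.FG) (_ : N.FG)
      (_ : M ≤ N) (_ : ∀ k ∈ K, ∀ m ∈ N, Commute k m) (_ : ∀ k ∈ K, k ∈ N → k = 1)
      (_ : ∀ g ∈ S, g ∈ K) (b : H → MonoidAlgebra P H) (_ : ∀ g ∈ S, Bi N (b g))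
      (g₀ : H) (_ : g₀ ∈ S) (l : ℕ) (_ : Chain P H l M (b g₀))
      (_ : ∑ g ∈ S, b g * of P H g ∈ I), ∃ l' M' b', Chain P H l' M' b' ∧ b' ∈ I := by
  classical
  intro n
  induction n with
  | zero =>
    intro S hS K N M hK hN hMN hKN hdis hSK b hb g₀ hg₀ l hch hI
    obtain ⟨g, rfl⟩ := Finset.card_eq_one.1 hS
    rw [Finset.mem_singleton] at hg₀
    subst hg₀
    rw [Finset.sum_singleton] at hI
    refine ⟨l, M, b g₀, hch, ?_⟩
    have h1 := hr (of P H g₀⁻¹) _ hI
    rwa [mul_assoc, ← map_mul, mul_inv_cancel, map_one, mul_one] at h1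
  | succ n ih =>
    intro S hS K N M hK hN hMN hKN hdis hSK b hb g₀ hg₀ l hch hI
    obtain ⟨j, hj, hjg⟩ : ∃ j ∈ S, j ≠ g₀ := by
      by_contra hcon
      push Not at hcon
      have : S ⊆ {g₀} := fun g hg => Finset.mem_singleton.2 (hcon g hg)
      have := Finset.card_le_card this
      rw [hS, Finset.card_singleton] at this
      omega
    obtain ⟨x, hx, hx'⟩ := exists_disjoint hc hs (hK.sup hN)
    obtain ⟨y, hy, hyN⟩ := hc.diag hK hN hKN hdis hx hx'
    -- the conjugate of `K`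
    let Kx : Subgroup H := K.map (MulAut.conj x⁻¹).toMonoidHom
    have hKx : ∀ k, k ∈ Kx ↔ ∃ k' ∈ K, k = x⁻¹ * k' * x := by
      intro k
      constructor
      · rintro ⟨k', hk', rfl⟩
        exact ⟨k', hk', by simp⟩
      · rintro ⟨k', hk', rfl⟩
        exact ⟨k', hk', by simp⟩
    have hKxfg : Kx.FG := by
      obtain ⟨T, hT⟩ := hK
      refine ⟨T.image (MulAut.conj x⁻¹).toMonoidHom, ?_⟩
      rw [Finset.coe_image, ← MonoidHom.map_closure, hT]
    have hKxmem : ∀ k ∈ K, x⁻¹ * k * x ∈ Kx := fun k hk => (hKx _).2 ⟨k, hk, rfl⟩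
    have hKNx : ∀ a ∈ N, ∀ b ∈ Kx, Commute a b := by
      intro a ha b hb
      obtain ⟨k, hk, rfl⟩ := (hKx b).1 hb
      exact (hx k (Subgroup.mem_sup_left hk) a (Subgroup.mem_sup_right ha)).symm
    let N' : Subgroup H := N ⊔ Kx
    let c : H := x⁻¹ * (g₀ * j⁻¹) * x
    have hgK : ∀ g ∈ S, g * j⁻¹ ∈ K := fun g hg => K.mul_mem (hSK g hg) (K.inv_mem (hSK j hj))
    have hcKx : c ∈ Kx := hKxmem _ (hgK g₀ hg₀)
    have hc1 : c ≠ 1 := by
      intro h1
      have h2 : g₀ * j⁻¹ = x * c * x⁻¹ := by simp only [c]; group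
      rw [h1] at h2
      have h3 : g₀ * j⁻¹ = 1 := by rw [h2]; group
      exact hjg (mul_inv_eq_one.1 h3).symm
    have hcM : IndE c M := by
      refine ⟨fun m hm => (hKNx m (hMN hm) c hcKx).symm, fun t ht => ?_⟩
      have h1 : c ^ t = x⁻¹ * ((g₀ * j⁻¹) ^ t) * x := by
        have := map_zpow (MulAut.conj x⁻¹) (g₀ * j⁻¹) t
        simp only [MulAut.conj_apply, inv_inv] at this
        exact this.symm
      have h2 : (g₀ * j⁻¹) ^ t = 1 := by
        apply hx' _ (Subgroup.mem_sup_left (K.zpow_mem (hgK g₀ hg₀) t))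
        rw [← h1]
        exact Subgroup.mem_sup_right (hMN ht)
      rw [h1, h2]; group
    -- the new element
    let w : H := x⁻¹ * j⁻¹ * x
    have hnew : ∑ g ∈ S, (b g * (of P H (x⁻¹ * (g * j⁻¹) * x) - 1)) * of P H g ∈ I := by
      have h1 : ∑ g ∈ S, (b g * (of P H (x⁻¹ * (g * j⁻¹) * x) - 1)) * of P H g =
          of P H y⁻¹ * (∑ g ∈ S, b g * of P H g) * of P H y * of P H w -
            ∑ g ∈ S, b g * of P H g := by
        rw [Finset.mul_sum, Finset.sum_mul, Finset.sum_mul, ← Finset.sum_sub_distrib]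
        refine Finset.sum_congr rfl fun g hg => ?_
        have e1 : of P H y⁻¹ * (b g * of P H g) * of P H y * of P H w =
            b g * of P H (x⁻¹ * (g * j⁻¹) * x * g) := by
          rw [← mul_assoc, ← hb g hg y⁻¹ (Cen.inv hyN)]
          rw [mul_assoc, mul_assoc, mul_assoc, ← map_mul, ← map_mul, ← map_mul]
          congr 2
          have e2 : y⁻¹ * (g * (y * w)) = (y⁻¹ * g * y) * w := by group
          rw [e2, hy g (hSK g hg)]
          have e3 : x⁻¹ * (g * j⁻¹) * x * g = g * (x⁻¹ * (g * j⁻¹) * x) :=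
            (hx _ (Subgroup.mem_sup_left (hgK g hg)) g (Subgroup.mem_sup_left (hSK g hg))).eq
          rw [e3]
          simp only [w]
          group
        rw [e1, mul_sub, sub_mul, mul_one, mul_assoc, ← map_mul]
      rw [h1]
      exact I.sub_mem (hr _ _ (hr _ _ (hl _ _ hI))) hI
    have hsub : ∑ g ∈ S.erase j, (b g * (of P H (x⁻¹ * (g * j⁻¹) * x) - 1)) * of P H g ∈ I := by
      rw [← Finset.add_sum_erase S _ hj] at hnew
      have h0 : (b j * (of P H (x⁻¹ * (j * j⁻¹) * x) - 1)) * of P H j = 0 := by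
        rw [mul_inv_cancel, mul_one, inv_mul_cancel, map_one, sub_self, mul_zero, zero_mul]
      rwa [h0, zero_add] at hnew
    have hMN' : M ⊔ Subgroup.zpowers c ≤ N' := by
      refine sup_le_sup hMN ?_
      rw [Subgroup.zpowers_le]; exact hcKx
    refine ih (S.erase j) (by rw [Finset.card_erase_of_mem hj, hS]; rfl) K N'
      (M ⊔ Subgroup.zpowers c) hK (hN.sup hKxfg) hMN' ?_ ?_ ?_
      (fun g => b g * (of P H (x⁻¹ * (g * j⁻¹) * x) - 1)) ?_ g₀
      (Finset.mem_erase.2 ⟨hjg.symm, hg₀⟩) (l + 1) (Chain.step c hch hc1 hcM) hsub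
    · intro k hk m hm
      obtain ⟨a, ha, d, hd, rfl⟩ := mem_sup_of_comm hKNx hm
      obtain ⟨k', hk', rfl⟩ := (hKx d).1 hd
      exact (hKN k hk a ha).mul_right
        (hx k' (Subgroup.mem_sup_left hk') k (Subgroup.mem_sup_left hk)).symm
    · intro k hk hm
      obtain ⟨a, ha, d, hd, hkad⟩ := mem_sup_of_comm hKNx hm
      obtain ⟨k', hk', rfl⟩ := (hKx d).1 hd
      have h1 : k' = 1 := by
        apply hx' k' (Subgroup.mem_sup_left hk')
        have : x⁻¹ * k' * x = a⁻¹ * k := by rw [hkad]; group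
        rw [this]
        exact (K ⊔ N).mul_mem ((K ⊔ N).inv_mem (Subgroup.mem_sup_right ha))
          (Subgroup.mem_sup_left hk)
      apply hdis k hk
      rw [hkad, h1]
      have : a * (x⁻¹ * 1 * x) = a := by group
      rw [this]
      exact ha
    · intro g hg
      exact hSK g (Finset.mem_of_mem_erase hg)
    · intro g hg
      have hg' := Finset.mem_of_mem_erase hg
      exact ((hb g hg').mono le_sup_left).mul
        (Bi.of_sub_one (Subgroup.mem_sup_right (hKxmem _ (hgK g hg'))))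

/-- A nonzero ideal contains a chain element. -/
theorem exists_chain (hc : InnerHomog H) (hs : SquareEmb H) {I : AddSubgroup (MonoidAlgebra P H)}
    (hl : ∀ r : MonoidAlgebra P H, ∀ i ∈ I, r * i ∈ I)
    (hr : ∀ r : MonoidAlgebra P H, ∀ i ∈ I, i * r ∈ I) {x : MonoidAlgebra P H} (hx : x ∈ I)
    (hx0 : x ≠ 0) : ∃ l M b, Chain P H l M b ∧ b ∈ I := by
  classical
  obtain ⟨g₀, hg₀⟩ : ∃ k, k ∈ x.coeff.support := by
    rw [← Finset.nonempty_def, Finset.nonempty_iff_ne_empty]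
    intro h0
    exact hx0 (coeff_eq_zero.1 (Finsupp.support_eq_empty.1 h0))
  have hcard : x.coeff.support.card = (x.coeff.support.card - 1) + 1 :=
    (Nat.succ_pred_eq_of_pos (Finset.card_pos.2 ⟨g₀, hg₀⟩)).symm
  refine elim hc hs hl hr _ x.coeff.support hcard
    (Subgroup.closure x.coeff.support) ⊥ ⊥ ⟨x.coeff.support, rfl⟩ Subgroup.FG.bot le_rfl
    ?_ ?_ ?_ (fun g => single 1 (x.coeff g)) ?_ g₀ hg₀ 0 ?_ ?_
  · intro k _ m hm
    rw [Subgroup.mem_bot.1 hm]
    exact Commute.one_right _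
  · intro k _ hk
    exact Subgroup.mem_bot.1 hk
  · intro g hg
    exact Subgroup.subset_closure hg
  · intro g _
    exact Bi.scalar _
  · exact Chain.base _ (Finsupp.mem_support_iff.1 hg₀)
  · have h1 : ∑ g ∈ x.coeff.support, (single 1 (x.coeff g) : MonoidAlgebra P H) * of P H g = x := by
      conv_rhs => rw [eq_sum x]
      refine Finset.sum_congr rfl fun g _ => ?_
      rw [of_apply, single_mul_single, one_mul, mul_one, smul_single, smul_eq_mul, mul_one]
    rw [h1]; exact hx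

end Pool.Agent.Helper66.AI
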