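import Mathlib

/-!
# Torsion in HNN extensions
-/

namespace Pool.Agent.Helper66.AI

open HNNExtension HNNExtension.NormalWord

/-- The group has no nontrivial solution of `g ^ n = 1`. -/
def NT (n : ℕ) (G : Type*) [Group G] : Prop := ∀ g : G, g ^ n = 1 → g = 1

variable {G : Type*} [Group G] {A B : Subgroup G} (φ : A ≃* B)

theorem t_zpow_mul_of (u : ℤˣ) (a : toSubgroup A B u) :
    (t ^ (u : ℤ) * of (a : G) : HNNExtension G A B φ) =
      of (toSubgroupEquiv φ u a : G) * t ^ (u : ℤ) := by
  rcases Int.units_eq_one_or u with rfl | rfl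
  · rw [Units.val_one, zpow_one]
    exact t_mul_of (φ := φ) (show A from a)
  · rw [Units.val_neg, Units.val_one, zpow_neg, zpow_one]
    exact inv_t_mul_of (φ := φ) (show B from a)

/-- The relation of reduced words. -/
def RW (A B : Subgroup G) (a b : ℤˣ × G) : Prop := a.2 ∈ toSubgroup A B a.1 → a.1 = b.1

/-- The product of a list of letters. -/
def lp (l : List (ℤˣ × G)) : HNNExtension G A B φ :=
  (l.map (fun x => t ^ (x.1 : ℤ) * of x.2)).prod

theorem lp_append (l₁ l₂ : List (ℤˣ × G)) : lp φ (l₁ ++ l₂) = lp φ l₁ * lp φ l₂ := by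
  simp [lp]

theorem lp_cons (a : ℤˣ × G) (l : List (ℤˣ × G)) :
    lp φ (a :: l) = t ^ (a.1 : ℤ) * of a.2 * lp φ l := by
  simp [lp]

theorem lp_nil : lp φ ([] : List (ℤˣ × G)) = 1 := by simp [lp]

theorem chain_concat {l : List (ℤˣ × G)} {u : ℤˣ} {g g' : G}
    (h : (l ++ [(u, g)]).IsChain (RW A B)) : (l ++ [(u, g')]).IsChain (RW A B) := by
  rw [List.isChain_append] at h ⊢
  refine ⟨h.1, List.isChain_singleton _, ?_⟩
  intro x hx y hy
  have h1 := h.2.2 x hx (u, g) (by simp)
  simp only [List.head?_cons, Option.mem_def, Option.some.injEq] at hy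
  subst hy
  exact h1

/-- Multiplying a word by an element of the base group from the right. -/
theorem absorb (l : List (ℤˣ × G)) (hl : l.IsChain (RW A B)) (g c : G) :
    ∃ (g' : G) (l' : List (ℤˣ × G)), l'.IsChain (RW A B) ∧ l'.length = l.length ∧
      (of g' : HNNExtension G A B φ) * lp φ l' = of g * lp φ l * of c := by
  rcases List.eq_nil_or_concat l with rfl | ⟨l₁, ⟨u, g₁⟩, rfl⟩
  · exact ⟨g * c, [], List.isChain_nil, rfl, by simp [lp_nil]⟩
  · refine ⟨g, l₁ ++ [(u, g₁ * c)], ?_, by simp, ?_⟩
    · rw [List.concat_eq_append] at hl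
      exact chain_concat hl
    · simp [lp_append, lp_cons, lp_nil, mul_assoc]

theorem chain_replicate {L : List (ℤˣ × G)} (hL : L.IsChain (RW A B)) (hne : L ≠ [])
    (hcyc : RW A B (L.getLast hne) (L.head hne)) (n : ℕ) :
    ((List.replicate n L).flatten).IsChain (RW A B) ∧
      ∀ y ∈ ((List.replicate n L).flatten).head?, y = L.head hne := by
  induction n with
  | zero => simp
  | succ n ih =>
    rw [List.replicate_succ, List.flatten_cons]
    refine ⟨?_, ?_⟩
    · rw [List.isChain_append]
      refine ⟨hL, ih.1, fun x hx y hy => ?_⟩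
      rw [List.getLast?_eq_getLast_of_ne_nil hne, Option.mem_def, Option.some.injEq] at hx
      rw [← hx, ih.2 y hy]
      exact hcyc
    · intro y hy
      rw [List.head?_append_of_ne_nil _ hne, List.head?_eq_some_head hne, Option.mem_def,
        Option.some.injEq] at hy
      exact hy.symm

theorem lp_replicate (L : List (ℤˣ × G)) (n : ℕ) :
    lp φ (List.replicate n L).flatten = lp φ L ^ n := by
  induction n with
  | zero => simp [lp_nil]
  | succ n ih =>
    rw [List.replicate_succ, List.flatten_cons, lp_append, ih, pow_succ']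

theorem britton {l : List (ℤˣ × G)} (hl : l.IsChain (RW A B)) {g : G}
    (h : lp φ l = of g) : l = [] := by
  let w : ReducedWord G A B := ⟨1, l, hl⟩
  refine ReducedWord.toList_eq_nil_of_mem_of_range φ w ?_
  refine ⟨g, ?_⟩
  rw [← h]
  simp [ReducedWord.prod, w, lp]

theorem hnn_aux {n : ℕ} (hn : n ≠ 0) (hG : NT n G) :
    ∀ (k : ℕ) (l : List (ℤˣ × G)), l.length = k → l.IsChain (RW A B) → ∀ g : G,
      ((of g : HNNExtension G A B φ) * lp φ l) ^ n = 1 →
        (of g : HNNExtension G A B φ) * lp φ l = 1 := by
  intro k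
  induction k using Nat.strong_induction_on with
  | _ k ih =>
    intro l hlk hl g hpow
    rcases List.eq_nil_or_concat l with rfl | ⟨m, ⟨u, g₁⟩, rfl⟩
    · rw [lp_nil, mul_one] at hpow ⊢
      rw [← map_pow] at hpow
      have h1 : g ^ n = 1 := of_injective (φ := φ) (by rw [hpow, map_one])
      rw [hG g h1, map_one]
    · rw [List.concat_eq_append] at hl hpow hlk ⊢
      -- the conjugate word
      let L : List (ℤˣ × G) := m ++ [(u, g₁ * g)]
      have hL : L.IsChain (RW A B) := chain_concat hl
      have hconj : (of g : HNNExtension G A B φ) * lp φ (m ++ [(u, g₁)]) =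
          of g * lp φ L * (of g)⁻¹ := by
        simp [L, lp_append, lp_cons, lp_nil, mul_assoc]
      have hLpow : lp φ L ^ n = 1 := by
        rw [hconj, conj_pow] at hpow
        have h2 := mul_inv_eq_one.1 hpow
        exact mul_eq_left.1 h2
      suffices hfin : lp φ L = 1 by rw [hconj, hfin]; simp
      have hne : L ≠ [] := by simp [L]
      have hlast : L.getLast hne = (u, g₁ * g) := by simp [L]
      by_cases hcyc : RW A B (L.getLast hne) (L.head hne)
      · exfalso
        have h3 := (chain_replicate hL hne hcyc n).1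
        have h4 := britton φ h3 (g := 1) (by rw [lp_replicate, hLpow, map_one])
        rw [List.flatten_eq_nil_iff] at h4
        exact hne (h4 L (List.mem_replicate.2 ⟨hn, rfl⟩))
      · rw [hlast] at hcyc
        have hmem : g₁ * g ∈ toSubgroup A B u := by
          by_contra hcon
          exact hcyc fun h => absurd h hcon
        have hne' : u ≠ (L.head hne).1 := fun h => hcyc fun _ => h
        -- the first letter
        rcases m with _ | ⟨⟨u₁, g₂⟩, m'⟩
        · simp [L] at hne'
        · have hu : u = -u₁ := by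
            have : u ≠ u₁ := by simpa [L] using hne'
            exact (Int.units_ne_iff_eq_neg).1 this
          let c : G := toSubgroupEquiv φ u ⟨g₁ * g, hmem⟩
          have hm' : m'.IsChain (RW A B) := by
            have h5 := (List.isChain_append.1 hL).1
            rw [List.isChain_cons] at h5
            exact h5.2
          obtain ⟨g', l', hl', hlen, hprod⟩ := absorb φ m' hm' g₂ c
          have hLeq : lp φ L = t ^ (u₁ : ℤ) * (of g' * lp φ l') * (t ^ (u₁ : ℤ))⁻¹ := by
            have h6 : lp φ L = t ^ (u₁ : ℤ) * of g₂ * lp φ m' *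
                (t ^ (u : ℤ) * of (g₁ * g)) := by
              simp [L, lp_append, lp_cons, lp_nil, mul_assoc]
            have h7 := t_zpow_mul_of φ u ⟨g₁ * g, hmem⟩
            have h8 : (t ^ (u : ℤ) : HNNExtension G A B φ) = (t ^ (u₁ : ℤ))⁻¹ := by
              rw [hu, Units.val_neg, zpow_neg]
            simp only at h7
            rw [h6, h7, h8, hprod]
            simp only [mul_assoc]
            rfl
          have h9 : (of g' * lp φ l' : HNNExtension G A B φ) ^ n = 1 := by
            rw [hLeq, conj_pow] at hLpow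
            have h2 := mul_inv_eq_one.1 hLpow
            exact mul_eq_left.1 h2
          have h10 := ih l'.length (by
            rw [hlen, ← hlk]; simp) l' rfl hl' g' h9
          rw [hLeq, h10]; simp

/-- HNN extensions do not create torsion. -/
theorem NT.hnn {n : ℕ} (hn : n ≠ 0) (hG : NT n G) : NT n (HNNExtension G A B φ) := by
  intro x hx
  rcases TransversalPair.nonempty G A B with ⟨d⟩
  have h1 : x = (x • (NormalWord.empty : NormalWord d)).prod φ := by simp
  set w : NormalWord d := x • (NormalWord.empty : NormalWord d) with hw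
  have h2 : w.prod φ = of w.head * lp φ w.toList := rfl
  rw [h1, h2] at hx ⊢
  exact hnn_aux φ hn hG _ _ rfl w.chain _ hx

end Pool.Agent.Helper66.AI
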