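import Pool.Agent.Helper66.AI.Basic

/-!
# Groups in which isomorphisms of finitely generated subgroups are induced by conjugations
-/

namespace Pool.Agent.Helper66.AI

variable {H : Type*} [Group H]

/-- Every injective homomorphism from a finitely generated subgroup `K` of `H` to `H` is
induced by an inner automorphism of `H`. -/
def InnerHomog (H : Type*) [Group H] : Prop :=
  ∀ K : Subgroup H, K.FG → ∀ φ : K →* H, Function.Injective φ →
    ∃ y : H, ∀ k : K, φ k = y⁻¹ * (k : H) * y

/-- For every finitely generated subgroup `K` of `H` the group `K × K` embeds in `H`. -/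
def SquareEmb (H : Type*) [Group H] : Prop :=
  ∀ K : Subgroup H, K.FG → ∃ φ : K × K →* H, Function.Injective φ

theorem InnerHomog.conj (hc : InnerHomog H) {K : Type*} [Group K] [Group.FG K] (φ ψ : K →* H)
    (hφ : Function.Injective φ) (hψ : Function.Injective ψ) :
    ∃ y : H, ∀ k : K, ψ k = y⁻¹ * φ k * y := by
  let e : K ≃* φ.range := MonoidHom.ofInjective hφ
  have he : ∀ k, ((e k : φ.range) : H) = φ k := fun k => rfl
  have hfg : (φ.range).FG := (Group.fg_iff_subgroup_fg _).1 (Group.fg_range φ)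
  obtain ⟨y, hy⟩ := hc φ.range hfg (ψ.comp e.symm.toMonoidHom)
    (hψ.comp e.symm.injective)
  refine ⟨y, fun k => ?_⟩
  have h1 := hy (e k)
  rw [he] at h1
  rw [← h1]
  simp [MonoidHom.comp_apply]

/-- The elements of the image of `f` commute with `M`, and the image meets `M` trivially
(and `f` is injective). -/
structure Ind {K : Type*} [Group K] (f : K →* H) (M : Subgroup H) : Prop where
  comm : ∀ k, ∀ m ∈ M, Commute (f k) m
  eq_one : ∀ k, f k ∈ M → k = 1

theorem Ind.injective {K : Type*} [Group K] {f : K →* H} {M : Subgroup H} (h : Ind f M) :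
    Function.Injective f := by
  rw [injective_iff_map_eq_one]
  intro k hk
  exact h.eq_one k (hk ▸ M.one_mem)

theorem Ind.exists_coprod {K : Type*} [Group K] {f : K →* H} {M : Subgroup H} (h : Ind f M) :
    ∃ F : K × M →* H, Function.Injective F ∧ ∀ k m, F (k, m) = f k * m := by
  have hcomm : ∀ (k : K) (m : M), Commute (f k) (M.subtype m) := fun k m => h.comm k m m.2
  refine ⟨f.noncommCoprod M.subtype hcomm, ?_, fun k m => rfl⟩
  rw [MonoidHom.noncommCoprod_injective]
  refine ⟨h.injective, M.subtype_injective, ?_⟩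
  rw [disjoint_iff_inf_le]
  rintro _ ⟨⟨k, rfl⟩, ⟨m, hm⟩⟩
  have : k = 1 := h.eq_one k (by rw [← hm]; exact m.2)
  rw [this, map_one]
  exact Subgroup.one_mem _

theorem InnerHomog.pair (hc : InnerHomog H) {K : Type*} [Group K] [Group.FG K]
    {M : Subgroup H} (hM : M.FG) {f g : K →* H} (hf : Ind f M) (hg : Ind g M) :
    ∃ y : H, (∀ k, g k = y⁻¹ * f k * y) ∧ ∀ m ∈ M, m * y = y * m := by
  have : Group.FG M := (Group.fg_iff_subgroup_fg _).2 hM
  obtain ⟨F, hF, hF'⟩ := hf.exists_coprod
  obtain ⟨G, hG, hG'⟩ := hg.exists_coprod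
  obtain ⟨y, hy⟩ := hc.conj F G hF hG
  refine ⟨y, fun k => ?_, fun m hm => ?_⟩
  · have := hy (k, 1)
    rw [hF', hG'] at this
    simpa using this
  · have := hy (1, ⟨m, hm⟩)
    rw [hF', hG', map_one, map_one, one_mul] at this
    simp only at this
    calc m * y = y * (y⁻¹ * m * y) := by group
      _ = y * m := by rw [← this]

/-- For every finitely generated subgroup `L` there is a conjugate
of `L` which commutes with `L` and meets `L` trivially. -/
theorem exists_disjoint (hc : InnerHomog H) (hs : SquareEmb H) {L : Subgroup H} (hL : L.FG) :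
    ∃ x : H, (∀ k ∈ L, ∀ l ∈ L, Commute (x⁻¹ * k * x) l) ∧
      ∀ k ∈ L, x⁻¹ * k * x ∈ L → k = 1 := by
  have : Group.FG L := (Group.fg_iff_subgroup_fg _).2 hL
  obtain ⟨φ, hφ⟩ := hs L hL
  have h1 : Function.Injective (φ.comp (MonoidHom.inl L L)) :=
    hφ.comp (fun a b h => by simpa using h)
  have h2 : Function.Injective (φ.comp (MonoidHom.inr L L)) :=
    hφ.comp (fun a b h => by simpa using h)
  obtain ⟨y, hy⟩ := hc.conj L.subtype _ L.subtype_injective h1
  obtain ⟨z, hz⟩ := hc.conj L.subtype _ L.subtype_injective h2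
  simp only [MonoidHom.comp_apply, MonoidHom.inl_apply, MonoidHom.inr_apply,
    Subgroup.subtype_apply] at hy hz
  have hk : ∀ k : L, (z * y⁻¹)⁻¹ * (k : H) * (z * y⁻¹) = y * φ (1, k) * y⁻¹ := by
    intro k
    rw [hz k]; group
  have hl : ∀ k : L, (k : H) = y * φ (k, 1) * y⁻¹ := by
    intro k
    rw [hy k]; group
  refine ⟨z * y⁻¹, fun k hkL l hlL => ?_, fun k hkL hmem => ?_⟩
  · have h3 := hk ⟨k, hkL⟩
    have h4 := hl ⟨l, hlL⟩
    simp only at h3 h4
    rw [h3, h4, commute_iff_eq]
    have h5 : φ (1, ⟨k, hkL⟩) * φ (⟨l, hlL⟩, 1) = φ (⟨l, hlL⟩, 1) * φ (1, ⟨k, hkL⟩) := by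
      rw [← map_mul, ← map_mul]; simp
    have : y * φ (1, ⟨k, hkL⟩) * y⁻¹ * (y * φ (⟨l, hlL⟩, 1) * y⁻¹) =
      y * (φ (1, ⟨k, hkL⟩) * φ (⟨l, hlL⟩, 1)) * y⁻¹ := by group
    rw [this, h5]; group
  · have h3 := hk ⟨k, hkL⟩
    have h4 := hl ⟨_, hmem⟩
    have h34 := h3.symm.trans h4
    have e1 : ∀ t : H, y⁻¹ * (y * t * y⁻¹) * y = t := fun t => by group
    have h5 : φ (1, ⟨k, hkL⟩) = φ (⟨_, hmem⟩, 1) := by
      have h6 := congrArg (fun t => y⁻¹ * t * y) h34
      simp only [e1] at h6
      exact h6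
    have h6 := hφ h5
    have h7 := congrArg Prod.snd h6
    exact congrArg Subtype.val h7

end Pool.Agent.Helper66.AI
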