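import Pool.Agent.Helper66.AI.HNN

/-!
# One step of the embedding
-/

namespace Pool.Agent.Helper66.AI

open RegularWreathProduct

universe u

section wreath

variable {G : Type*} [Group G] {Q : Type*} [Group Q]

/-- The base group of the wreath product. -/
def base : (Q → G) →* G ≀ᵣ Q :=
  MonoidHom.mk' (fun x => ⟨x, 1⟩) (by
    intro x y
    ext q
    · simp
    · simp)

theorem base_left (x : Q → G) : (base x : G ≀ᵣ Q).left = x := rfl

theorem base_right (x : Q → G) : (base x : G ≀ᵣ Q).right = 1 := rfl

theorem base_injective : Function.Injective (base : (Q → G) →* G ≀ᵣ Q) := by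
  intro x y h
  exact congrArg RegularWreathProduct.left h

omit [Group Q] in
theorem NT.pi {n : ℕ} (hG : NT n G) : NT n (Q → G) := by
  intro x hx
  ext q
  exact hG (x q) (congrFun hx q)

theorem NT.of_injective {n : ℕ} {G' : Type*} [Group G'] (hG : NT n G) (f : G' →* G)
    (hf : Function.Injective f) : NT n G' := by
  intro x hx
  apply hf
  rw [map_one]
  apply hG
  rw [← map_pow, hx, map_one]

theorem NT.wreath {n : ℕ} (hG : NT n G) (hQ : NT n Q) : NT n (G ≀ᵣ Q) := by
  intro w hw
  have h1 : w.right = 1 := by
    apply hQ
    have := congrArg rightHom hw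
    rwa [map_pow, map_one] at this
  have h2 : w = base w.left := by
    ext q
    · rfl
    · rw [h1]; rfl
  have h3 : w.left ^ n = 1 := by
    apply base_injective
    rw [map_pow, ← h2, hw, map_one]
  have h4 := (hG.pi (Q := Q)) _ h3
  rw [h2, h4, map_one]

theorem NT.prod {n : ℕ} (hG : NT n G) (hQ : NT n Q) : NT n (G × Q) := by
  rintro ⟨g, q⟩ h
  have h1 := congrArg Prod.fst h
  have h2 := congrArg Prod.snd h
  exact Prod.ext (hG _ h1) (hQ _ h2)

theorem conj_base (q : Q) (x : Q → G) :
    inl q * base x * (inl q)⁻¹ = (base (fun r => x (q⁻¹ * r)) : G ≀ᵣ Q) := by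
  ext r
  · simp [base]
  · simp [base]

theorem conj_base_single [DecidableEq Q] (q : Q) (g : G) :
    inl q * base (Pi.mulSingle 1 g) * (inl q)⁻¹ = (base (Pi.mulSingle q g) : G ≀ᵣ Q) := by
  rw [conj_base]
  congr 1
  ext r
  by_cases h : r = q
  · subst h; simp
  · rw [Pi.mulSingle_eq_of_ne h, Pi.mulSingle_eq_of_ne]
    intro h1
    exact h (inv_mul_eq_one.1 h1).symm

end wreath

/-- The injective homomorphisms from subgroups of `G` to `G`. -/
structure PI (G : Type u) [Group G] : Type u where
  /-- the subgroup -/
  dom : Subgroup G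
  /-- the homomorphism -/
  map : dom →* G
  /-- it is injective -/
  inj : Function.Injective map

section plus

variable (G : Type u) [Group G]

instance : Nonempty (PI G) := ⟨⟨⊥, 1, fun a b _ => Subsingleton.elim a b⟩⟩

/-- The top group of the wreath product. -/
abbrev TopG : Type u := G × Multiplicative (PI G →₀ ℤ)

/-- A surjection from the top group to the partial isomorphisms. -/
noncomputable def code : TopG G → PI G := fun q =>
  Function.invFun (fun i : PI G => Multiplicative.ofAdd (Finsupp.single i (1 : ℤ))) q.2

theorem code_surjective : Function.Surjective (code G) := by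
  intro i
  refine ⟨(1, Multiplicative.ofAdd (Finsupp.single i 1)), ?_⟩
  unfold code
  have hinj : Function.Injective
      (fun i : PI G => Multiplicative.ofAdd (Finsupp.single i (1 : ℤ))) := by
    intro a b hab
    have h1 : Finsupp.single a (1 : ℤ) = Finsupp.single b 1 := hab
    exact (Finsupp.single_left_inj one_ne_zero).1 h1
  exact Function.leftInverse_invFun hinj i

/-- The functions with values in the domains. -/
noncomputable def domG : Subgroup (TopG G → G) where
  carrier := {x | ∀ q, x q ∈ (code G q).dom}
  one_mem' := fun _ => Subgroup.one_mem _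
  mul_mem' := fun hx hy q => Subgroup.mul_mem _ (hx q) (hy q)
  inv_mem' := fun hx q => Subgroup.inv_mem _ (hx q)

/-- The product of all partial isomorphisms. -/
noncomputable def mapG : domG G →* (TopG G → G) where
  toFun x := fun q => (code G q).map ⟨x.1 q, x.2 q⟩
  map_one' := by
    ext q
    exact map_one _
  map_mul' x y := by
    ext q
    exact map_mul (code G q).map ⟨x.1 q, x.2 q⟩ ⟨y.1 q, y.2 q⟩

theorem mapG_injective : Function.Injective (mapG G) := by
  intro x y h
  apply Subtype.ext
  funext q
  have h1 : (code G q).map ⟨x.1 q, x.2 q⟩ = (code G q).map ⟨y.1 q, y.2 q⟩ := congrFun h q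
  exact congrArg Subtype.val ((code G q).inj h1)

/-- The subgroup `A` for the HNN extension, as an embedding. -/
noncomputable def embA : domG G →* G ≀ᵣ TopG G := base.comp (domG G).subtype

/-- The subgroup `B` for the HNN extension, as an embedding. -/
noncomputable def embB : domG G →* G ≀ᵣ TopG G := base.comp (mapG G)

theorem embA_injective : Function.Injective (embA G) :=
  base_injective.comp (domG G).subtype_injective

theorem embB_injective : Function.Injective (embB G) :=
  base_injective.comp (mapG_injective G)

/-- The isomorphism of the HNN extension. -/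
noncomputable def isoAB : (embA G).range ≃* (embB G).range :=
  (MonoidHom.ofInjective (embA_injective G)).symm.trans
    (MonoidHom.ofInjective (embB_injective G))

/-- The overgroup in which all partial isomorphisms of `G` are conjugations. -/
abbrev Plus : Type u := HNNExtension (G ≀ᵣ TopG G) (embA G).range (embB G).range (isoAB G)

variable {G}

theorem isoAB_apply (d : domG G) : ((isoAB G ⟨embA G d, ⟨d, rfl⟩⟩ : (embB G).range) :
    G ≀ᵣ TopG G) = embB G d := by
  have h1 : (⟨embA G d, ⟨d, rfl⟩⟩ : (embA G).range) =
    MonoidHom.ofInjective (embA_injective G) d := rfl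
  rw [h1, isoAB, MulEquiv.trans_apply, MulEquiv.symm_apply_apply]
  rfl

theorem t_conj (d : domG G) : (HNNExtension.of (embB G d) : Plus G) =
    HNNExtension.t * HNNExtension.of (embA G d) * HNNExtension.t⁻¹ := by
  have h := HNNExtension.equiv_eq_conj (φ := isoAB G) ⟨embA G d, ⟨d, rfl⟩⟩
  rw [isoAB_apply] at h
  exact h

open Classical in
/-- The embedding of `G` in the overgroup. -/
noncomputable def emb : G →* Plus G :=
  HNNExtension.of.comp (base.comp (MonoidHom.mulSingle (fun _ : TopG G => G) 1))

open Classical in
theorem emb_apply (g : G) : emb g =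
    (HNNExtension.of (base (Pi.mulSingle 1 g)) : Plus G) := rfl

theorem emb_injective : Function.Injective (emb : G →* Plus G) := by
  classical
  refine (HNNExtension.of_injective (isoAB G)).comp (base_injective.comp ?_)
  intro a b h
  have h1 := congrFun h 1
  simpa using h1

theorem exists_conj (i : PI G) : ∃ y : Plus G, ∀ a : i.dom,
    emb (i.map a) = y⁻¹ * emb (a : G) * y := by
  classical
  obtain ⟨q, rfl⟩ := code_surjective G i
  let Y : Plus G := (HNNExtension.of (inl q))⁻¹ * HNNExtension.t * HNNExtension.of (inl q)
  refine ⟨Y⁻¹, fun a => ?_⟩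
  have hd : ∀ r, (Pi.mulSingle q (a : G) : TopG G → G) r ∈ (code G r).dom := by
    intro r
    by_cases h : r = q
    · subst h
      rw [Pi.mulSingle_eq_same]
      exact a.2
    · rw [Pi.mulSingle_eq_of_ne h]
      exact Subgroup.one_mem _
  let d : domG G := ⟨Pi.mulSingle q (a : G), hd⟩
  have h1 : embA G d = inl q * base (Pi.mulSingle 1 (a : G)) * (inl q)⁻¹ := by
    rw [conj_base_single]
    rfl
  have h2 : embB G d = inl q * base (Pi.mulSingle 1 ((code G q).map a)) * (inl q)⁻¹ := by
    rw [conj_base_single]
    have h3 : mapG G d = Pi.mulSingle q ((code G q).map a) := by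
      funext r
      show (code G r).map ⟨(Pi.mulSingle q (a : G) : TopG G → G) r, hd r⟩ = _
      by_cases h : r = q
      · subst h
        have h5 : (Pi.mulSingle r ((code G r).map a) : TopG G → G) r = (code G r).map a :=
          Pi.mulSingle_eq_same (M := fun _ => G) r _
        rw [h5]
        exact congrArg _ (Subtype.ext (Pi.mulSingle_eq_same (M := fun _ => G) r (a : G)))
      · have h5 : (Pi.mulSingle q ((code G q).map a) : TopG G → G) r = 1 :=
          Pi.mulSingle_eq_of_ne (M := fun _ => G) h _
        rw [h5]
        have h4 : (⟨(Pi.mulSingle q (a : G) : TopG G → G) r, hd r⟩ : (code G r).dom) = 1 :=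
          Subtype.ext (Pi.mulSingle_eq_of_ne (M := fun _ => G) h (a : G))
        rw [h4, map_one]
    show base (mapG G d) = _
    rw [h3]
  have h5 := t_conj d
  rw [h1, h2] at h5
  simp only [map_mul, map_inv] at h5
  rw [emb_apply, emb_apply]
  simp only [Y]
  calc HNNExtension.of (base (Pi.mulSingle 1 ((code G q).map a))) =
      (HNNExtension.of (inl q))⁻¹ * (HNNExtension.of (inl q) *
        HNNExtension.of (base (Pi.mulSingle 1 ((code G q).map a))) *
          (HNNExtension.of (inl q))⁻¹) * HNNExtension.of (inl q) := by group
    _ = (HNNExtension.of (inl q))⁻¹ * (HNNExtension.t * (HNNExtension.of (inl q) *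
        HNNExtension.of (base (Pi.mulSingle 1 (a : G))) *
          (HNNExtension.of (inl q))⁻¹) * HNNExtension.t⁻¹) * HNNExtension.of (inl q) := by
        rw [h5]
    _ = _ := by group

theorem exists_one_ne : ∃ q : TopG G, q ≠ 1 := by
  refine ⟨(1, Multiplicative.ofAdd (Finsupp.single (Classical.arbitrary (PI G)) 1)), ?_⟩
  intro h
  have h1 := congrArg (fun q : TopG G => (Multiplicative.toAdd q.2)
    (Classical.arbitrary (PI G))) h
  simp at h1

theorem exists_square : ∃ f : G × G →* Plus G, Function.Injective f := by
  classical
  obtain ⟨q, hq⟩ := exists_one_ne (G := G)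
  let g : G × G →* (TopG G → G) :=
    { toFun := fun p r => if r = 1 then p.1 else p.2
      map_one' := by
        funext r
        simp
      map_mul' := by
        intro x y
        funext r
        by_cases h : r = 1
        · simp [h]
        · simp [h] }
  refine ⟨HNNExtension.of.comp (base.comp g), (HNNExtension.of_injective (isoAB G)).comp
    (base_injective.comp ?_)⟩
  rintro ⟨a, b⟩ ⟨c, d⟩ h
  have h1 := congrFun h 1
  have h2 := congrFun h q
  simp only [g, MonoidHom.coe_mk, OneHom.coe_mk, if_true, if_neg hq] at h1 h2
  rw [h1, h2]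

/-- An element of the order of `b` in the normal closure of an element of the order of `a`. -/
theorem exists_normal {a : G} (ha : a ≠ 1) (b : G) : ∃ a' b' : Plus G,
    (∀ n : ℤ, a' ^ n = 1 ↔ a ^ n = 1) ∧ (∀ n : ℤ, b' ^ n = 1 ↔ b ^ n = 1) ∧
      b' ∈ Subgroup.normalClosure {a'} := by
  classical
  let q : TopG G := (a, 1)
  have hq : q ≠ 1 := fun h => ha (congrArg Prod.fst h)
  let A : Plus G := HNNExtension.of (inl q)
  let B : Plus G := HNNExtension.of (base (Pi.mulSingle 1 b))
  refine ⟨A, B * A * B⁻¹ * A⁻¹, ?_, ?_, ?_⟩
  · intro n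
    have h1 : A ^ n = HNNExtension.of (inl (q ^ n)) := by
      simp only [A, ← map_zpow]
    rw [h1]
    constructor
    · intro h
      have h2 : (inl (q ^ n) : G ≀ᵣ TopG G) = 1 :=
        HNNExtension.of_injective (isoAB G) (by rw [h, map_one])
      have h3 := congrArg RegularWreathProduct.right h2
      have h4 : q ^ n = 1 := h3
      exact congrArg Prod.fst h4
    · intro h
      have h4 : q ^ n = 1 := Prod.ext h (by simp [q])
      rw [h4, map_one, map_one]
  · intro n
    let x : TopG G → G := fun r => if r = 1 then b else if r = q then b⁻¹ else 1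
    have h1 : B * A * B⁻¹ * A⁻¹ = HNNExtension.of (base x) := by
      have h2 : B * A * B⁻¹ * A⁻¹ = HNNExtension.of (base (Pi.mulSingle 1 b) *
          (inl q * base (Pi.mulSingle 1 b) * (inl q)⁻¹)⁻¹) := by
        simp only [A, B, map_mul, map_inv]
        group
      rw [h2, conj_base_single, ← map_inv, ← map_mul]
      congr 2
      funext r
      simp only [Pi.mul_apply, Pi.inv_apply, x]
      by_cases h3 : r = 1
      · subst h3
        rw [Pi.mulSingle_eq_same, Pi.mulSingle_eq_of_ne hq.symm]
        simp
      · rw [if_neg h3, Pi.mulSingle_eq_of_ne h3]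
        by_cases h4 : r = q
        · subst h4
          rw [Pi.mulSingle_eq_same]; simp
        · rw [Pi.mulSingle_eq_of_ne h4, if_neg h4]; simp
    rw [h1, ← map_zpow, ← map_zpow]
    constructor
    · intro h
      have h2 : x ^ n = 1 := by
        apply base_injective
        apply HNNExtension.of_injective (isoAB G)
        rw [h, map_one, map_one]
      have h3 := congrFun h2 1
      simpa [x] using h3
    · intro h
      have h2 : x ^ n = 1 := by
        funext r
        simp only [Pi.pow_apply, Pi.one_apply, x]
        split_ifs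
        · exact h
        · rw [inv_zpow, h, inv_one]
        · exact one_zpow n
      rw [h2, map_one, map_one]
  · have h1 : A ∈ Subgroup.normalClosure {A} := Subgroup.subset_normalClosure rfl
    exact Subgroup.mul_mem _ (Subgroup.normalClosure_normal.conj_mem A h1 B)
      (Subgroup.inv_mem _ h1)

theorem NT.plus {n : ℕ} (hn : n ≠ 0) (hG : NT n G) : NT n (Plus G) := by
  refine NT.hnn _ hn (hG.wreath (hG.prod ?_))
  intro x hx
  have h1 : n • Multiplicative.toAdd x = 0 := hx
  have h2 : Multiplicative.toAdd x = 0 := by
    ext i
    have h3 := DFunLike.congr_fun h1 i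
    rw [Finsupp.smul_apply, Finsupp.zero_apply, smul_eq_zero] at h3
    rcases h3 with h3 | h3
    · exact absurd h3 hn
    · exact h3
  exact h2

end plus

end Pool.Agent.Helper66.AI
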