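import Pool.Agent.Helper66.AI.Elim

/-!
# Shortening chain elements
-/

namespace Pool.Agent.Helper66.AI

open MonoidAlgebra

variable {P : Type*} [Field P] {H : Type*} [Group H]

/-- An independent conjugate exists. -/
theorem exists_indE (hc : InnerHomog H) (hs : SquareEmb H) {K L : Subgroup H} (hK : K.FG)
    (hL : L.FG) : ∃ x : H, (∀ k ∈ K, ∀ l ∈ K ⊔ L, Commute (x⁻¹ * k * x) l) ∧
      (∀ k ∈ K, x⁻¹ * k * x ∈ K ⊔ L → k = 1) ∧ ∀ k ∈ K, IndE (x⁻¹ * k * x) (K ⊔ L) := by
  obtain ⟨x, hx, hx'⟩ := exists_disjoint hc hs (hK.sup hL)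
  refine ⟨x, fun k hk => hx k (Subgroup.mem_sup_left hk),
    fun k hk => hx' k (Subgroup.mem_sup_left hk), fun k hk =>
    ⟨fun m hm => hx k (Subgroup.mem_sup_left hk) m hm, fun n hn => ?_⟩⟩
  have h1 : (x⁻¹ * k * x) ^ n = x⁻¹ * k ^ n * x := by
    have := map_zpow (MulAut.conj x⁻¹) k n
    simp only [MulAut.conj_apply, inv_inv] at this
    exact this.symm
  rw [h1] at hn ⊢
  rw [hx' (k ^ n) (Subgroup.mem_sup_left (K.zpow_mem hk n)) hn]
  group

section

variable (hc : InnerHomog H) (hs : SquareEmb H) {I : AddSubgroup (MonoidAlgebra P H)}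
  (hl : ∀ r : MonoidAlgebra P H, ∀ i ∈ I, r * i ∈ I)
  (hr : ∀ r : MonoidAlgebra P H, ∀ i ∈ I, i * r ∈ I)

include hc hs hl hr

omit hs in
theorem transfer {M : Subgroup H} (hM : M.FG) {w : MonoidAlgebra P H} (hw : Bi M w)
    {u v x : H} (hu : IndE u M) (hv : IndE v M) (huv : v = x⁻¹ * u * x)
    (h : w * (of P H u - 1) ∈ I) : w * (of P H v - 1) ∈ I := by
  obtain ⟨y, hy, hyM⟩ := hc.pairE hM hu hv huv
  have h1 : w * (of P H v - 1) = of P H y⁻¹ * (w * (of P H u - 1)) * of P H y := by
    have h2 : of P H v - 1 = of P H y⁻¹ * (of P H u - 1) * of P H y := by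
      rw [hy, mul_sub, sub_mul, mul_one, ← map_mul, ← map_mul, ← map_mul, inv_mul_cancel,
        map_one]
    rw [h2, ← mul_assoc, ← mul_assoc, hw y⁻¹ hyM.inv, mul_assoc (of P H y⁻¹) w]
  rw [h1]
  exact hr _ _ (hl _ _ h)

/-- If `w (c - 1) ∈ I` for one independent `c ≠ 1` then for all independent elements. -/
theorem T1 [IsSimpleGroup H] {M : Subgroup H} (hM : M.FG) {w : MonoidAlgebra P H} (hw : Bi M w)
    {c : H} (hc1 : c ≠ 1) (hcM : IndE c M) (h : w * (of P H c - 1) ∈ I) :
    ∀ f : H, IndE f M → w * (of P H f - 1) ∈ I := by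
  let N : Subgroup H :=
    { carrier := {s | ∀ x : H, IndE (x⁻¹ * s * x) M → w * (of P H (x⁻¹ * s * x) - 1) ∈ I}
      one_mem' := by
        intro x _
        have : x⁻¹ * 1 * x = 1 := by group
        rw [this, map_one, sub_self, mul_zero]
        exact I.zero_mem
      mul_mem' := by
        intro s t hs' ht' z hz
        obtain ⟨x, hx1, _, hx3⟩ := exists_indE hc hs (K := Subgroup.closure {s, t}) (L := M)
          ((Subgroup.fg_iff _).2 ⟨{s, t}, rfl, Set.toFinite _⟩) hM
        have hs1 : s ∈ Subgroup.closure {s, t} := Subgroup.subset_closure (by simp)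
        have ht1 : t ∈ Subgroup.closure {s, t} := Subgroup.subset_closure (by simp)
        have hst : s * t ∈ Subgroup.closure {s, t} := Subgroup.mul_mem _ hs1 ht1
        have hIs := (hx3 s hs1).mono (le_sup_right : M ≤ _)
        have hIt := (hx3 t ht1).mono (le_sup_right : M ≤ _)
        have hIst := (hx3 _ hst).mono (le_sup_right : M ≤ _)
        refine transfer hc hl hr hM hw (x := x⁻¹ * z) hIst hz (by group) ?_
        have e1 : x⁻¹ * (s * t) * x = (x⁻¹ * s * x) * (x⁻¹ * t * x) := by group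
        have e2 : w * (of P H (x⁻¹ * (s * t) * x) - 1) =
            of P H (x⁻¹ * s * x) * (w * (of P H (x⁻¹ * t * x) - 1)) +
              w * (of P H (x⁻¹ * s * x) - 1) := by
          rw [e1, map_mul, ← mul_assoc, ← hw _ hIs.cen]
          noncomm_ring
        rw [e2]
        exact I.add_mem (hl _ _ (ht' x hIt)) (hs' x hIs)
      inv_mem' := by
        intro s hs' z hz
        have hz' : IndE (z⁻¹ * s * z) M := by
          have e1 : z⁻¹ * s⁻¹ * z = (z⁻¹ * s * z)⁻¹ := by group
          rw [e1] at hz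
          refine ⟨fun m hm => ?_, fun n hn => ?_⟩
          · exact (Commute.inv_left_iff).1 (hz.comm m hm)
          · have := hz.eq_one (-n) (by rw [zpow_neg, inv_zpow, inv_inv]; exact hn)
            rwa [zpow_neg, inv_zpow, inv_inv] at this
        have e1 : z⁻¹ * s⁻¹ * z = (z⁻¹ * s * z)⁻¹ := by group
        have e2 : w * (of P H (z⁻¹ * s⁻¹ * z) - 1) =
            -(of P H (z⁻¹ * s⁻¹ * z) * (w * (of P H (z⁻¹ * s * z) - 1))) := by
          have e3 : of P H (z⁻¹ * s⁻¹ * z) * of P H (z⁻¹ * s * z) = 1 := by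
            rw [← map_mul, e1, inv_mul_cancel, map_one]
          have e4 := hw _ hz.cen
          generalize of P H (z⁻¹ * s⁻¹ * z) = u' at *
          generalize of P H (z⁻¹ * s * z) = u at *
          calc w * (u' - 1) = w * u' - w * (u' * u) := by rw [e3, mul_sub]
            _ = -(w * u' * (u - 1)) := by noncomm_ring
            _ = -(u' * (w * (u - 1))) := by rw [e4, mul_assoc]
        rw [e2]
        exact I.neg_mem (hl _ _ (hs' z hz')) }
  have hmemN : ∀ s, s ∈ N ↔ ∀ x : H, IndE (x⁻¹ * s * x) M →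
      w * (of P H (x⁻¹ * s * x) - 1) ∈ I := fun s => Iff.rfl
  have hN : N.Normal := by
    refine ⟨fun s hs' g => ?_⟩
    rw [hmemN] at hs' ⊢
    intro x hx
    have e1 : x⁻¹ * (g * s * g⁻¹) * x = (g⁻¹ * x)⁻¹ * s * (g⁻¹ * x) := by group
    rw [e1] at hx ⊢
    exact hs' _ hx
  have hcN : c ∈ N := by
    rw [hmemN]
    intro x hx
    exact transfer hc hl hr hM hw (x := x) hcM hx rfl h
  have htop : N = ⊤ := by
    rcases hN.eq_bot_or_eq_top with h0 | h0
    · rw [h0] at hcN
      exact absurd (Subgroup.mem_bot.1 hcN) hc1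
    · exact h0
  intro f hf
  have hfN : f ∈ N := by rw [htop]; exact Subgroup.mem_top f
  have := (hmemN f).1 hfN 1 (by
    have e1 : (1 : H)⁻¹ * f * 1 = f := by group
    rw [e1]; exact hf)
  have e1 : (1 : H)⁻¹ * f * 1 = f := by group
  rwa [e1] at this

/-- If `w (c₀ - 1) (c - 1) ∈ I` for one independent pair then for all independent pairs. -/
theorem T2 [IsSimpleGroup H] {M : Subgroup H} (hM : M.FG) {w : MonoidAlgebra P H} (hw : Bi M w)
    {c₀ c : H} (hc₀1 : c₀ ≠ 1) (hc₀M : IndE c₀ M) (hc1 : c ≠ 1)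
    (hcM : IndE c (M ⊔ Subgroup.zpowers c₀))
    (h : w * (of P H c₀ - 1) * (of P H c - 1) ∈ I) :
    ∀ a b : H, IndE a M → IndE b (M ⊔ Subgroup.zpowers a) →
      w * (of P H a - 1) * (of P H b - 1) ∈ I := by
  intro a b ha hb
  have hw₀ : Bi (M ⊔ Subgroup.zpowers c₀) (w * (of P H c₀ - 1)) :=
    (hw.mono le_sup_left).mul (Bi.of_sub_one (Subgroup.mem_sup_right (Subgroup.mem_zpowers c₀)))
  have hstar := T1 hc hs hl hr (hM.sup (fg_zpowers c₀)) hw₀ hc1 hcM h
  -- an independent conjugate of `c₀`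
  obtain ⟨x, hx1, hx2, hx3⟩ := exists_indE hc hs (K := Subgroup.zpowers c₀)
    (L := Subgroup.zpowers a ⊔ M) (fg_zpowers c₀) ((fg_zpowers a).sup hM)
  set c₁ : H := x⁻¹ * c₀ * x with hc₁
  have hI₁ : IndE c₁ (Subgroup.zpowers c₀ ⊔ (Subgroup.zpowers a ⊔ M)) :=
    hx3 c₀ (Subgroup.mem_zpowers c₀)
  have hI₁M : IndE c₁ M := hI₁.mono (le_sup_right.trans le_sup_right)
  have hc₁1 : c₁ ≠ 1 := by
    intro h1
    apply hc₀1
    calc c₀ = x * (x⁻¹ * c₀ * x) * x⁻¹ := by group
      _ = 1 := by rw [← hc₁, h1]; group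
  obtain ⟨y, hy, hyM⟩ := hc.pairE hM hc₀M hI₁M hc₁
  have hMa : ∀ m ∈ M, Commute a m := ha.comm
  have hac₁ : Commute c₁ a :=
    hI₁.comm a (Subgroup.mem_sup_right (Subgroup.mem_sup_left (Subgroup.mem_zpowers a)))
  -- `f = y a y⁻¹`
  have hf : IndE (y * a * y⁻¹) (M ⊔ Subgroup.zpowers c₀) := by
    have hMc : ∀ m ∈ M, ∀ k ∈ Subgroup.zpowers c₀, Commute m k := by
      rintro m hm _ ⟨n, rfl⟩
      exact ((hc₀M.comm m hm).zpow_left n).symm
    refine ⟨fun m hm => ?_, fun n hn => ?_⟩
    · obtain ⟨m', hm', k, ⟨n, rfl⟩, rfl⟩ := mem_sup_of_comm hMc hm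
      refine Commute.mul_right ?_ ?_
      · have e1 : m' = y * m' * y⁻¹ := by rw [← hyM m' hm']; group
        rw [e1]
        exact (hMa m' hm').map (MulAut.conj y).toMonoidHom
      · refine Commute.zpow_right ?_ n
        have e1 : c₀ = y * c₁ * y⁻¹ := by rw [hy]; group
        rw [e1]
        exact hac₁.symm.map (MulAut.conj y).toMonoidHom
    · have e0 : (y * a * y⁻¹) ^ n = y * a ^ n * y⁻¹ := by
        have := map_zpow (MulAut.conj y) a n
        simp only [MulAut.conj_apply] at this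
        exact this.symm
      obtain ⟨m', hm', k, ⟨j, rfl⟩, hmk⟩ := mem_sup_of_comm hMc hn
      rw [e0] at hmk ⊢
      -- `a ^ n = m' * c₁ ^ j`
      have e1 : a ^ n = m' * c₁ ^ j := by
        have e2 : y⁻¹ * c₀ ^ j * y = c₁ ^ j := by
          have := map_zpow (MulAut.conj y⁻¹) c₀ j
          simp only [MulAut.conj_apply, inv_inv] at this
          rw [this, ← hy]
        have e3 : y⁻¹ * m' * y = m' := by
          rw [mul_assoc, hyM m' hm']; group
        have hmk' : y * a ^ n * y⁻¹ = m' * c₀ ^ j := hmk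
        calc a ^ n = y⁻¹ * (y * a ^ n * y⁻¹) * y := by group
          _ = y⁻¹ * (m' * c₀ ^ j) * y := by rw [hmk']
          _ = (y⁻¹ * m' * y) * (y⁻¹ * c₀ ^ j * y) := by group
          _ = m' * c₁ ^ j := by rw [e2, e3]
      have e2 : c₁ ^ j = 1 := by
        apply hI₁.eq_one
        have e3 : c₁ ^ j = m'⁻¹ * a ^ n := by rw [e1]; group
        rw [e3]
        apply Subgroup.mem_sup_right
        exact Subgroup.mul_mem _ (Subgroup.inv_mem _ (Subgroup.mem_sup_right hm'))
          (Subgroup.mem_sup_left (Subgroup.zpow_mem _ (Subgroup.mem_zpowers a) n))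
      have e4 : a ^ n = 1 := by
        apply ha.eq_one
        rw [e1, e2, mul_one]; exact hm'
      rw [e4]; group
  have h1 := hstar _ hf
  -- conjugate by `y`
  have h2 : w * (of P H c₁ - 1) * (of P H a - 1) ∈ I := by
    have e1 : w * (of P H c₁ - 1) * (of P H a - 1) = of P H y⁻¹ *
        (w * (of P H c₀ - 1) * (of P H (y * a * y⁻¹) - 1)) * of P H y := by
      have e2 : of P H c₁ - 1 = of P H y⁻¹ * (of P H c₀ - 1) * of P H y := by
        rw [hy, mul_sub, sub_mul, mul_one, ← map_mul, ← map_mul, ← map_mul, inv_mul_cancel,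
          map_one]
      have e3 : of P H (y * a * y⁻¹) - 1 = of P H y * (of P H a - 1) * of P H y⁻¹ := by
        rw [mul_sub, sub_mul, mul_one, ← map_mul, ← map_mul, ← map_mul, mul_inv_cancel,
          map_one]
      have e4 : of P H y⁻¹ * of P H y = 1 := by rw [← map_mul, inv_mul_cancel, map_one]
      rw [e2, e3]
      calc w * (of P H y⁻¹ * (of P H c₀ - 1) * of P H y) * (of P H a - 1) =
          (w * of P H y⁻¹) * (of P H c₀ - 1) * of P H y * (of P H a - 1) * 1 := by
            simp only [mul_assoc, mul_one]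
        _ = (of P H y⁻¹ * w) * (of P H c₀ - 1) * of P H y * (of P H a - 1) *
            (of P H y⁻¹ * of P H y) := by rw [hw y⁻¹ hyM.inv, e4]
        _ = _ := by simp only [mul_assoc]
    rw [e1]
    exact hr _ _ (hl _ _ h1)
  have hcomm : (of P H c₁ - 1) * (of P H a - 1) = (of P H a - 1) * (of P H c₁ - 1) := by
    have := hac₁.map (of P H)
    have h3 : Commute (of P H c₁ - 1) (of P H a - 1) :=
      (this.sub_right (Commute.one_right _)).sub_left
        ((Commute.one_left _).sub_right (Commute.one_left _))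
    exact h3.eq
  rw [mul_assoc, hcomm, ← mul_assoc] at h2
  have hwa : Bi (M ⊔ Subgroup.zpowers a) (w * (of P H a - 1)) :=
    (hw.mono le_sup_left).mul (Bi.of_sub_one (Subgroup.mem_sup_right (Subgroup.mem_zpowers a)))
  refine T1 hc hs hl hr (hM.sup (fg_zpowers a)) hwa hc₁1 ?_ h2 b hb
  refine hI₁.mono ?_
  rw [sup_comm]
  exact le_sup_right

theorem T3 [IsSimpleGroup H] {M : Subgroup H} (hM : M.FG) {w : MonoidAlgebra P H} (hw : Bi M w)
    {c₀ c : H} (hc₀1 : c₀ ≠ 1) (hc₀M : IndE c₀ M) (hc1 : c ≠ 1)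
    (hcM : IndE c (M ⊔ Subgroup.zpowers c₀))
    (h : w * (of P H c₀ - 1) * (of P H c - 1) ∈ I) :
    ∀ b : H, IndE b M → w * (of P H b - 1) * (of P H b - 1) ∈ I := by
  have key := T2 hc hs hl hr hM hw hc₀1 hc₀M hc1 hcM h
  intro b hb
  obtain ⟨x, hx1, hx2, hx3⟩ := exists_indE hc hs (K := Subgroup.zpowers b) (L := M)
    (fg_zpowers b) hM
  set a : H := x⁻¹ * b * x with ha
  have hIa : IndE a (Subgroup.zpowers b ⊔ M) := hx3 b (Subgroup.mem_zpowers b)
  have hab : Commute a b := hIa.comm b (Subgroup.mem_sup_left (Subgroup.mem_zpowers b))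
  have h1 := key b a hb (by rw [sup_comm]; exact hIa)
  have hIba : IndE (b * a) (M ⊔ Subgroup.zpowers b) := by
    rw [sup_comm]
    have hbM : ∀ m ∈ Subgroup.zpowers b ⊔ M, Commute b m := by
      intro m hm
      have hc' : ∀ k ∈ Subgroup.zpowers b, ∀ m ∈ M, Commute k m := by
        rintro _ ⟨n, rfl⟩ m hm
        exact (hb.comm m hm).zpow_left n
      obtain ⟨_, ⟨n, rfl⟩, m', hm', rfl⟩ := mem_sup_of_comm hc' hm
      exact ((Commute.refl b).zpow_right n).mul_right (hb.comm m' hm')
    refine ⟨fun m hm => (hbM m hm).mul_left (hIa.comm m hm), fun n hn => ?_⟩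
    rw [hab.symm.mul_zpow] at hn ⊢
    have h2 : a ^ n ∈ Subgroup.zpowers b ⊔ M := by
      have : a ^ n = (b ^ n)⁻¹ * (b ^ n * a ^ n) := by group
      rw [this]
      exact Subgroup.mul_mem _ (Subgroup.inv_mem _ (Subgroup.mem_sup_left
        (Subgroup.zpow_mem _ (Subgroup.mem_zpowers b) n))) hn
    have h3 := hIa.eq_one n h2
    have h4 : b ^ n = 1 := by
      apply hx2 _ (Subgroup.zpow_mem _ (Subgroup.mem_zpowers b) n)
      have : x⁻¹ * b ^ n * x = a ^ n := by
        have := map_zpow (MulAut.conj x⁻¹) b n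
        simp only [MulAut.conj_apply, inv_inv] at this
        exact this
      rw [this]; exact h2
    rw [h3, h4, mul_one]
  have h2 := key b (b * a) hb hIba
  have e1 : w * (of P H b - 1) * (of P H b - 1) =
      (w * (of P H b - 1) * (of P H (b * a) - 1) - w * (of P H b - 1) * (of P H a - 1)) *
        of P H a⁻¹ := by
    have e2 : of P H a * of P H a⁻¹ = 1 := by rw [← map_mul, mul_inv_cancel, map_one]
    calc w * (of P H b - 1) * (of P H b - 1) = w * (of P H b - 1) * (of P H b - 1) *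
          (of P H a * of P H a⁻¹) := by rw [e2, mul_one]
      _ = _ := by
        rw [map_mul (of P H) b a]
        generalize of P H a = u
        generalize of P H a⁻¹ = u'
        noncomm_ring
  rw [e1]
  exact hr _ _ (I.sub_mem h2 h1)

omit hl hr in
/-- A group with these properties is not nilpotent of class at most two. -/
theorem exists_cm_ne [IsSimpleGroup H] : ∃ a b c : H, cm (cm a b) c ≠ 1 := by
  have hab : ∃ a b : H, a * b ≠ b * a := by
    obtain ⟨g, hg⟩ := exists_ne (1 : H)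
    obtain ⟨x, _, hx⟩ := exists_disjoint hc hs (fg_zpowers g)
    by_contra hcon
    push Not at hcon
    apply hg
    apply hx g (Subgroup.mem_zpowers g)
    have : x⁻¹ * g * x = g := by rw [mul_assoc, hcon g x]; group
    rw [this]
    exact Subgroup.mem_zpowers g
  obtain ⟨a, b, hab⟩ := hab
  have hcen : Subgroup.center H = ⊥ := by
    rcases (inferInstance : (Subgroup.center H).Normal).eq_bot_or_eq_top with h0 | h0
    · exact h0
    · exfalso
      have : a ∈ Subgroup.center H := by rw [h0]; exact Subgroup.mem_top a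
      exact hab (Subgroup.mem_center_iff.1 this b).symm
  by_contra hcon
  push Not at hcon
  have h1 : cm a b ∈ Subgroup.center H := by
    rw [Subgroup.mem_center_iff]
    intro g
    have h2 := hcon a b g
    have h3 : cm a b * g = cm (cm a b) g * (g * cm a b) := by
      unfold cm; group
    rw [h3, h2, one_mul]
  rw [hcen, Subgroup.mem_bot] at h1
  apply hab
  calc a * b = cm a b * (b * a) := by unfold cm; group
    _ = b * a := by rw [h1, one_mul]

/-- The reduction lemma. -/
theorem reduce [IsSimpleGroup H] {M : Subgroup H} (hM : M.FG) {w : MonoidAlgebra P H}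
    (hw : Bi M w) {c₀ c : H} (hc₀1 : c₀ ≠ 1) (hc₀M : IndE c₀ M) (hc1 : c ≠ 1)
    (hcM : IndE c (M ⊔ Subgroup.zpowers c₀))
    (h : w * (of P H c₀ - 1) * (of P H c - 1) ∈ I) :
    ∃ s : H, s ≠ 1 ∧ IndE s M ∧ w * (of P H s - 1) ∈ I := by
  have key := T3 hc hs hl hr hM hw hc₀1 hc₀M hc1 hcM h
  obtain ⟨a, b, d, habd⟩ := exists_cm_ne hc hs
  -- the subgroup generated by `a`, `b`, `d` and its independent conjugate
  let K : Subgroup H := Subgroup.closure {a, b, d}
  have haK : a ∈ K := Subgroup.subset_closure (by simp)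
  have hbK : b ∈ K := Subgroup.subset_closure (by simp)
  have hdK : d ∈ K := Subgroup.subset_closure (by simp)
  obtain ⟨x, hx1, hx2, hx3⟩ := exists_indE hc hs (K := K) (L := M)
    ((Subgroup.fg_iff _).2 ⟨{a, b, d}, rfl, Set.toFinite _⟩) hM
  have hIM : ∀ k ∈ K, IndE (x⁻¹ * k * x) M := fun k hk => (hx3 k hk).mono le_sup_right
  -- the centralizer ring of `w` and its ideal
  let C : Subring (MonoidAlgebra P H) := Subring.centralizer {w}
  have hC : ∀ z, z ∈ C ↔ w * z = z * w := by
    intro z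
    simp only [C, Subring.mem_centralizer_iff, Set.mem_singleton_iff, forall_eq]
  let Q : TwoSidedIdeal C := TwoSidedIdeal.mk' {z : C | w * (z : MonoidAlgebra P H) ∈ I}
    (by
      show w * ((0 : C) : MonoidAlgebra P H) ∈ I
      rw [ZeroMemClass.coe_zero, mul_zero]; exact I.zero_mem)
    (by
      intro u v hu hv
      show w * ((u + v : C) : MonoidAlgebra P H) ∈ I
      rw [Subring.coe_add, mul_add]; exact I.add_mem hu hv)
    (by
      intro u hu
      show w * ((-u : C) : MonoidAlgebra P H) ∈ I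
      rw [Subring.coe_neg, mul_neg]; exact I.neg_mem hu)
    (by
      intro u v hv
      show w * ((u * v : C) : MonoidAlgebra P H) ∈ I
      rw [Subring.coe_mul, ← mul_assoc, (hC u).1 u.2, mul_assoc]
      exact hl _ _ hv)
    (by
      intro u v hu
      show w * ((u * v : C) : MonoidAlgebra P H) ∈ I
      rw [Subring.coe_mul, ← mul_assoc]
      exact hr _ _ hu)
  have hQ : ∀ z : C, z ∈ Q ↔ w * (z : MonoidAlgebra P H) ∈ I := fun z =>
    TwoSidedIdeal.mem_mk' ..
  let π : C →+* Q.ringCon.Quotient := Q.ringCon.mk'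
  have hπ : ∀ z : C, π z = 0 ↔ w * (z : MonoidAlgebra P H) ∈ I := by
    intro z
    rw [← hQ]
    have h1 := TwoSidedIdeal.mem_ker (f := Q.ringCon.mk') (x := z)
    rw [TwoSidedIdeal.ker_ringCon_mk'] at h1
    exact h1.symm
  let ρ₀ : K →* C :=
    { toFun := fun k => ⟨of P H (x⁻¹ * (k : H) * x), by
        rw [hC]; exact hw _ (hIM k k.2).cen⟩
      map_one' := by
        apply Subtype.ext
        show of P H (x⁻¹ * ((1 : K) : H) * x) = 1
        rw [OneMemClass.coe_one, mul_one, inv_mul_cancel, map_one]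
      map_mul' := by
        rintro ⟨u, hu⟩ ⟨v, hv⟩
        apply Subtype.ext
        show of P H (x⁻¹ * (u * v) * x) = of P H (x⁻¹ * u * x) * of P H (x⁻¹ * v * x)
        rw [← map_mul]
        congr 1
        group }
  have hρ₀ : ∀ k : K, ((ρ₀ k : C) : MonoidAlgebra P H) = of P H (x⁻¹ * (k : H) * x) :=
    fun k => rfl
  let ρ : K →* Q.ringCon.Quotient := π.toMonoidHom.comp ρ₀
  have hρ : ∀ k, ρ k = π (ρ₀ k) := fun k => rfl
  have hρ1 : ∀ k, ρ k = 1 ↔ w * (of P H (x⁻¹ * (k : H) * x) - 1) ∈ I := by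
    intro k
    rw [hρ, ← sub_eq_zero, ← map_one π, ← map_sub, hπ]
    rfl
  have hsq : ∀ k, (ρ k - 1) * (ρ k - 1) = 0 := by
    intro k
    rw [hρ, ← map_one π, ← map_sub, ← map_mul, hπ]
    show w * ((of P H (x⁻¹ * (k : H) * x) - 1) * (of P H (x⁻¹ * (k : H) * x) - 1)) ∈ I
    rw [← mul_assoc]
    exact key _ (hIM k k.2)
  have hne : ∀ k ∈ K, k ≠ 1 → x⁻¹ * k * x ≠ 1 := by
    intro k _ hk1 h1
    apply hk1
    calc k = x * (x⁻¹ * k * x) * x⁻¹ := by group
      _ = 1 := by rw [h1]; group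
  by_cases h2 : (2 : P) = 0
  · -- characteristic two
    obtain ⟨k, hkK, hk⟩ : ∃ k ∈ K, k * k ≠ 1 := by
      by_contra hcon
      push Not at hcon
      apply habd
      have hcomm : ∀ u ∈ K, ∀ v ∈ K, u * v = v * u := by
        intro u hu v hv
        have h3 := hcon (u * v) (K.mul_mem hu hv)
        have h4 := hcon u hu
        have h5 := hcon v hv
        have hu' : u⁻¹ = u := inv_eq_of_mul_eq_one_left h4
        have hv' : v⁻¹ = v := inv_eq_of_mul_eq_one_left h5
        have huv : (u * v)⁻¹ = u * v := inv_eq_of_mul_eq_one_left h3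
        rw [← huv, mul_inv_rev, hu', hv']
      have h6 : cm a b = 1 := by
        unfold cm
        rw [hcomm a haK b hbK]; group
      rw [h6]
      unfold cm; group
    have h3 : ρ (⟨k, hkK⟩ * ⟨k, hkK⟩) = 1 := by
      refine unip_two ρ hsq ?_ _
      intro t
      obtain ⟨z, rfl⟩ := Q.ringCon.mk'_surjective t
      show π z + π z = 0
      rw [← map_add, hπ, Subring.coe_add]
      have : (z : MonoidAlgebra P H) + z = 0 := by
        have h4 : (z : MonoidAlgebra P H) + z = (2 : P) • (z : MonoidAlgebra P H) := by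
          rw [two_smul]
        rw [h4, h2, zero_smul]
      rw [this, mul_zero]; exact I.zero_mem
    rw [hρ1] at h3
    exact ⟨x⁻¹ * (k * k) * x, hne _ (K.mul_mem hkK hkK) hk, hIM _ (K.mul_mem hkK hkK), h3⟩
  · -- characteristic different from two
    have hcmK : cm (cm a b) d ∈ K := by
      unfold cm
      have h1 : a * b * a⁻¹ * b⁻¹ ∈ K :=
        K.mul_mem (K.mul_mem (K.mul_mem haK hbK) (K.inv_mem haK)) (K.inv_mem hbK)
      exact K.mul_mem (K.mul_mem (K.mul_mem h1 hdK) (K.inv_mem h1)) (K.inv_mem hdK)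
    have h3 := unip_comm ρ hsq (by
      intro t ht
      obtain ⟨z, rfl⟩ := Q.ringCon.mk'_surjective t
      have ht' : π z + π z = 0 := ht
      show π z = 0
      rw [← map_add, hπ, Subring.coe_add] at ht'
      rw [hπ]
      have h4 : w * (z : MonoidAlgebra P H) =
          algebraMap P (MonoidAlgebra P H) (2 : P)⁻¹ *
            (w * ((z : MonoidAlgebra P H) + z)) := by
        rw [← Algebra.smul_def, ← mul_smul_comm, ← two_smul P (z : MonoidAlgebra P H),
          smul_smul, inv_mul_cancel₀ h2, one_smul]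
      rw [h4]
      exact hl _ _ ht') ⟨a, haK⟩ ⟨b, hbK⟩ ⟨d, hdK⟩
    rw [hρ1] at h3
    have e1 : ((cm (cm (⟨a, haK⟩ : K) ⟨b, hbK⟩) ⟨d, hdK⟩ : K) : H) = cm (cm a b) d := rfl
    rw [e1] at h3
    exact ⟨x⁻¹ * cm (cm a b) d * x, hne _ hcmK habd, hIM _ hcmK, h3⟩

/-- From a chain element in `I` to an element `s - 1` in `I`. -/
theorem chain_descent [IsSimpleGroup H] : ∀ (l : ℕ) (M : Subgroup H) (b : MonoidAlgebra P H),
    Chain P H l M b → b ∈ I → ∃ s : H, s ≠ 1 ∧ of P H s - 1 ∈ I := by
  intro l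
  induction l with
  | zero =>
    intro M b hch hb
    cases hch with
    | base a ha =>
      obtain ⟨s, hs'⟩ := exists_ne (1 : H)
      refine ⟨s, hs', ?_⟩
      have h1 : (of P H s - 1 : MonoidAlgebra P H) =
          ((of P H s - 1) * single 1 a⁻¹) * single 1 a := by
        rw [mul_assoc, single_mul_single, inv_mul_cancel₀ ha, mul_one, ← one_def, mul_one]
      rw [h1]
      exact hl _ _ hb
  | succ l ih =>
    intro M b hch hb
    cases hch with
    | step c hch hc1 hcM =>
      cases hch with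
      | base a ha =>
        refine ⟨c, hc1, ?_⟩
        have h1 : (of P H c - 1 : MonoidAlgebra P H) =
            single 1 a⁻¹ * (single 1 a * (of P H c - 1)) := by
          rw [← mul_assoc, single_mul_single, inv_mul_cancel₀ ha, mul_one, ← one_def, one_mul]
        rw [h1]
        exact hl _ _ hb
      | step c₀ hch₀ hc₀1 hc₀M =>
        obtain ⟨s, hs1, hsM, hsI⟩ := reduce hc hs hl hr hch₀.fg hch₀.bi hc₀1 hc₀M hc1 hcM hb
        exact ih _ _ (Chain.step s hch₀ hs1 hsM) hsI

end

/-- In a simple group with the two properties each nonzero ideal of the group ring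
contains the augmentation ideal. -/
theorem augIdeal_le_of_homog [IsSimpleGroup H] (hc : InnerHomog H) (hs : SquareEmb H)
    (I : AddSubgroup (MonoidAlgebra P H))
    (hl : ∀ r : MonoidAlgebra P H, ∀ i ∈ I, r * i ∈ I)
    (hr : ∀ r : MonoidAlgebra P H, ∀ i ∈ I, i * r ∈ I) (hI : I ≠ ⊥) :
    ∀ x ∈ augIdeal P H, x ∈ I := by
  obtain ⟨x, hxI, hx0⟩ : ∃ x ∈ I, x ≠ 0 := by
    by_contra hcon
    push Not at hcon
    exact hI (eq_bot_iff.2 fun x hx => AddSubgroup.mem_bot.2 (hcon x hx))
  obtain ⟨l, M, b, hch, hb⟩ := exists_chain hc hs hl hr hxI hx0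
  obtain ⟨s, hs1, hsI⟩ := chain_descent hc hs hl hr l M b hch hb
  let N : Subgroup H :=
    { carrier := {g | of P H g - 1 ∈ I}
      one_mem' := by
        show of P H 1 - 1 ∈ I
        rw [map_one, sub_self]; exact I.zero_mem
      mul_mem' := by
        intro g k hg hk
        show of P H (g * k) - 1 ∈ I
        have : of P H (g * k) - 1 = of P H g * (of P H k - 1) + (of P H g - 1) := by
          rw [map_mul]; noncomm_ring
        rw [this]
        exact I.add_mem (hl _ _ hk) hg
      inv_mem' := by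
        intro g hg
        show of P H g⁻¹ - 1 ∈ I
        have : of P H g⁻¹ - 1 = -(of P H g⁻¹ * (of P H g - 1)) := by
          rw [mul_sub, ← map_mul, inv_mul_cancel, map_one]; noncomm_ring
        rw [this]
        exact I.neg_mem (hl _ _ hg) }
  have hmemN : ∀ g, g ∈ N ↔ of P H g - 1 ∈ I := fun g => Iff.rfl
  have hN : N.Normal := by
    refine ⟨fun s hs' g => ?_⟩
    rw [hmemN] at hs' ⊢
    have : of P H (g * s * g⁻¹) - 1 = of P H g * (of P H s - 1) * of P H g⁻¹ := by
      rw [mul_sub, sub_mul, mul_one, ← map_mul, ← map_mul, ← map_mul, mul_inv_cancel, map_one]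
    rw [this]
    exact hr _ _ (hl _ _ hs')
  have htop : N = ⊤ := by
    rcases hN.eq_bot_or_eq_top with h0 | h0
    · exfalso
      have : s ∈ N := hsI
      rw [h0] at this
      exact hs1 (Subgroup.mem_bot.1 this)
    · exact h0
  intro y hy
  refine augIdeal_le hl (fun g => ?_) hy
  rw [← hmemN, htop]
  exact Subgroup.mem_top g

/-- Such a group is infinite. -/
theorem infinite_of_homog [Nontrivial H] (hc : InnerHomog H) (hs : SquareEmb H) :
    Infinite H := by
  by_contra hcon
  rw [not_infinite_iff_finite] at hcon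
  have hfg : (⊤ : Subgroup H).FG := by
    have : Group.FG H := inferInstance
    exact Group.fg_def.1 this
  obtain ⟨x, _, hx⟩ := exists_disjoint hc hs hfg
  obtain ⟨g, hg⟩ := exists_ne (1 : H)
  exact hg (hx g (Subgroup.mem_top g) (Subgroup.mem_top _))

theorem augSimple_iff (P : Type*) [Field P] (hc : InnerHomog H) (hs : SquareEmb H) :
    AugSimple P H ↔ IsSimpleGroup H := by
  refine ⟨fun h => h.isSimpleGroup, fun h => ?_⟩
  have : Infinite H := infinite_of_homog hc hs
  exact augSimple_of fun I hl hr hI => augIdeal_le_of_homog hc hs I hl hr hI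

end Pool.Agent.Helper66.AI
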