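import Pool.Agent.Helper66.AI.Plus
import Pool.Agent.Helper66.AI.Homog

/-!
# The union of the tower
-/

namespace Pool.Agent.Helper66.AI

universe u

/-- The union of a sequence of groups. -/
theorem exists_union (T : ℕ → Type u) [∀ n, Group (T n)] (s : ∀ n, T n →* T (n + 1))
    (hs : ∀ n, Function.Injective (s n)) :
    ∃ (H : Type u) (_ : Group H) (inc : ∀ n, T n →* H), (∀ n, Function.Injective (inc n)) ∧
      (∀ n x, inc (n + 1) (s n x) = inc n x) ∧ ∀ h : H, ∃ n x, inc n x = h := by
  let f : ∀ i j (_ : i ≤ j), T i →* T j := fun i j h =>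
    Nat.leRec (motive := fun m _ => T i →* T m) (MonoidHom.id _)
      (fun k _ g => (s k).comp g) h
  have f_self : ∀ i, f i i le_rfl = MonoidHom.id _ := by
    intro i
    exact Nat.leRec_self _ _
  have f_succ : ∀ i j (h : i ≤ j), f i (j + 1) (Nat.le_succ_of_le h) = (s j).comp (f i j h) := by
    intro i j h
    exact Nat.leRec_succ _ _ h
  have f_inj : ∀ i j h, Function.Injective (f i j h) := by
    intro i j h
    induction j, h using Nat.le_induction with
    | base => rw [f_self]; exact fun a b h => h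
    | succ j h ih =>
      rw [f_succ i j h]
      exact (hs j).comp ih
  have f_trans : ∀ i j k (h1 : i ≤ j) (h2 : j ≤ k) (x : T i),
      f j k h2 (f i j h1 x) = f i k (h1.trans h2) x := by
    intro i j k h1 h2 x
    induction k, h2 using Nat.le_induction with
    | base => rw [f_self]; rfl
    | succ k h2 ih =>
      rw [f_succ j k h2, f_succ i k (h1.trans h2)]
      simp only [MonoidHom.comp_apply]
      rw [ih]
  have : DirectedSystem T (fun i j h => f i j h) :=
    { map_self := fun i x => by rw [f_self]; rfl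
      map_map := fun k j i hij hjk x => f_trans _ _ _ hij hjk x }
  refine ⟨DirectLimit T f, inferInstance, fun n => MonoidHom.mk' (fun x => ⟦⟨n, x⟩⟧)
    (fun x y => (DirectLimit.mul_def n x y).symm), fun n => ?_, fun n x => ?_, fun h => ?_⟩
  · exact DirectLimit.mk_injective f f_inj n
  · show (⟦⟨n + 1, s n x⟩⟧ : DirectLimit T f) = ⟦⟨n, x⟩⟧
    have h1 : s n x = f n (n + 1) (Nat.le_succ n) x := by
      rw [f_succ n n le_rfl, f_self]; rfl
    rw [h1]
    exact DirectLimit.mk_apply n (n + 1) x (Nat.le_succ n)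
  · obtain ⟨n, x, hx⟩ := DirectLimit.exists_eq_mk f h
    exact ⟨n, x, hx.symm⟩

/-- The tower of overgroups. -/
noncomputable def tower (G : GrpCat.{u}) : ℕ → GrpCat.{u}
  | 0 => G
  | n + 1 => GrpCat.of (Plus (tower G n))

section

variable {T : ℕ → Type u} [∀ n, Group (T n)] {s : ∀ n, T n →* T (n + 1)} {H : Type u} [Group H]
  {inc : ∀ n, T n →* H}

theorem inc_mono (hcomp : ∀ n x, inc (n + 1) (s n x) = inc n x) {m n : ℕ} (h : m ≤ n) :
    (inc m).range ≤ (inc n).range := by
  induction n, h using Nat.le_induction with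
  | base => exact le_rfl
  | succ n h ih =>
    refine ih.trans ?_
    rintro _ ⟨x, rfl⟩
    exact ⟨s n x, hcomp n x⟩

theorem fg_le_range (hcomp : ∀ n x, inc (n + 1) (s n x) = inc n x)
    (hsurj : ∀ h : H, ∃ n x, inc n x = h) {K : Subgroup H} (hK : K.FG) :
    ∃ n, K ≤ (inc n).range := by
  classical
  obtain ⟨S, rfl⟩ := hK
  suffices ∀ S : Finset H, ∃ n, ∀ x ∈ S, x ∈ (inc n).range by
    obtain ⟨n, hn⟩ := this S
    exact ⟨n, (Subgroup.closure_le _).2 hn⟩
  intro S
  induction S using Finset.induction_on with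
  | empty => exact ⟨0, by simp⟩
  | insert a S _ ih =>
    obtain ⟨n, hn⟩ := ih
    obtain ⟨m, x, hx⟩ := hsurj a
    refine ⟨max n m, fun y hy => ?_⟩
    rcases Finset.mem_insert.1 hy with rfl | hy
    · exact inc_mono hcomp (le_max_right n m) ⟨x, hx⟩
    · exact inc_mono hcomp (le_max_left n m) (hn y hy)

end

/-- Elements of the same order are conjugate. -/
theorem InnerHomog.conj_of_order {H : Type*} [Group H] (hc : InnerHomog H) {b b' : H}
    (h : ∀ n : ℤ, b ^ n = 1 ↔ b' ^ n = 1) : ∃ y : H, b' = y⁻¹ * b * y := by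
  let φ₀ : Multiplicative ℤ →* H := zpowersHom H b
  let ψ₀ : Multiplicative ℤ →* H := zpowersHom H b'
  have hker : φ₀.ker = ψ₀.ker := by
    ext n
    rw [MonoidHom.mem_ker, MonoidHom.mem_ker]
    exact h (Multiplicative.toAdd n)
  let φ : Multiplicative ℤ ⧸ φ₀.ker →* H := QuotientGroup.kerLift φ₀
  let ψ : Multiplicative ℤ ⧸ φ₀.ker →* H := QuotientGroup.lift φ₀.ker ψ₀ (by
    intro x hx; rw [hker] at hx; exact hx)
  have hψ : Function.Injective ψ := by
    rw [injective_iff_map_eq_one]
    intro x
    induction x using QuotientGroup.induction_on with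
    | H z =>
      intro hz
      rw [QuotientGroup.eq_one_iff, hker]
      exact hz
  obtain ⟨y, hy⟩ := hc.conj φ ψ (QuotientGroup.kerLift_injective φ₀) hψ
  refine ⟨y, ?_⟩
  have h1 := hy (QuotientGroup.mk (Multiplicative.ofAdd 1))
  have h2 : φ (QuotientGroup.mk (Multiplicative.ofAdd 1)) = b := by
    show φ₀ _ = b
    simp [φ₀]
  have h3 : ψ (QuotientGroup.mk (Multiplicative.ofAdd 1)) = b' := by
    show ψ₀ _ = b'
    simp [ψ₀]
  rw [h2, h3] at h1
  exact h1

/-- Each group embeds in a simple group with the two properties, without new torsion. -/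
theorem exists_embedding (G : Type u) [Group G] :
    ∃ (H : Type u) (_ : Group H) (ι : G →* H), Function.Injective ι ∧ InnerHomog H ∧
      SquareEmb H ∧ IsSimpleGroup H ∧ ∀ n : ℕ, n ≠ 0 → NT n G → NT n H := by
  let T : ℕ → Type u := fun n => tower (GrpCat.of G) n
  let s : ∀ n, T n →* T (n + 1) := fun n => (emb : tower (GrpCat.of G) n →* _)
  have hs : ∀ n, Function.Injective (s n) := fun n => emb_injective
  obtain ⟨H, _, inc, hinj, hcomp, hsurj⟩ := exists_union T s hs
  -- conjugacy
  have hc : InnerHomog H := by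
    intro K hK φ hφ
    have hfg : Group.FG K := (Group.fg_iff_subgroup_fg _).2 hK
    have hKφ : (K ⊔ φ.range).FG :=
      hK.sup ((Group.fg_iff_subgroup_fg _).1 (Group.fg_range φ))
    obtain ⟨n, hn⟩ := fg_le_range hcomp hsurj hKφ
    have hn1 : K ≤ (inc n).range := le_sup_left.trans hn
    have hn2 : φ.range ≤ (inc n).range := le_sup_right.trans hn
    let e : T n ≃* (inc n).range := MonoidHom.ofInjective (hinj n)
    have he : ∀ x : (inc n).range, inc n (e.symm x) = (x : H) := by
      intro x
      have : ((e (e.symm x) : (inc n).range) : H) = inc n (e.symm x) := rfl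
      rw [← this, MulEquiv.apply_symm_apply]
    let A : Subgroup (T n) := K.comap (inc n)
    let f : A →* T n := e.symm.toMonoidHom.comp
      ((φ.comp (((inc n).comp A.subtype).codRestrict K (fun a => a.2))).codRestrict
        (inc n).range (fun a => hn2 ⟨_, rfl⟩))
    have hf : ∀ a : A, inc n (f a) = φ ⟨inc n a, a.2⟩ := by
      intro a
      exact he _
    have hfinj : Function.Injective f := by
      intro a b hab
      have h1 : φ ⟨inc n a, a.2⟩ = φ ⟨inc n b, b.2⟩ := by rw [← hf, ← hf, hab]
      have h2 := congrArg Subtype.val (hφ h1)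
      exact Subtype.ext (hinj n h2)
    obtain ⟨y, hy⟩ := exists_conj (G := T n) ⟨A, f, hfinj⟩
    refine ⟨inc (n + 1) y, fun k => ?_⟩
    obtain ⟨x, hx⟩ := hn1 k.2
    have hxA : x ∈ A := by
      show inc n x ∈ K
      rw [hx]; exact k.2
    let F : Plus (T n) →* H := inc (n + 1)
    have h1 := congrArg F (hy ⟨x, hxA⟩)
    have h2 : ∀ z : T n, F (emb z) = inc n z := hcomp n
    have h3 : F (emb (f ⟨x, hxA⟩)) = φ k := by
      rw [h2, hf]
      congr 1
      exact Subtype.ext hx
    have h4 : F (y⁻¹ * emb x * y) = (F y)⁻¹ * (k : H) * F y := by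
      rw [map_mul, map_mul, map_inv, h2, hx]
    rw [← h3]
    exact h1.trans h4
  have hsq : SquareEmb H := by
    intro K hK
    obtain ⟨n, hn⟩ := fg_le_range hcomp hsurj hK
    let e : T n ≃* (inc n).range := MonoidHom.ofInjective (hinj n)
    let j : K →* T n := e.symm.toMonoidHom.comp (Subgroup.inclusion hn)
    have hj : Function.Injective j := e.symm.injective.comp (Subgroup.inclusion_injective hn)
    obtain ⟨f, hf⟩ := exists_square (G := T n)
    let f' : T n × T n →* T (n + 1) := f
    refine ⟨(inc (n + 1)).comp (f'.comp (MonoidHom.prodMap j j)), ?_⟩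
    refine (hinj (n + 1)).comp (hf.comp ?_)
    rintro ⟨a, b⟩ ⟨c, d⟩ h
    have h1 := congrArg Prod.fst h
    have h2 := congrArg Prod.snd h
    exact Prod.ext (hj h1) (hj h2)
  refine ⟨H, inferInstance, inc 0, hinj 0, hc, hsq, ?_, ?_⟩
  · -- simplicity
    have hnt : Nontrivial H := by
      obtain ⟨q, hq⟩ := exists_one_ne (G := T 0)
      have h1 : (HNNExtension.of (RegularWreathProduct.inl q) : Plus (T 0)) ≠ 1 := by
        intro h
        have h2 : (RegularWreathProduct.inl q : RegularWreathProduct (T 0) (TopG (T 0))) = 1 :=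
          HNNExtension.of_injective (isoAB (T 0)) (by rw [h, map_one])
        exact hq (congrArg RegularWreathProduct.right h2)
      refine ⟨⟨inc 1 (HNNExtension.of (RegularWreathProduct.inl q) : Plus (T 0)), 1, ?_⟩⟩
      intro h
      apply h1
      exact hinj 1 (h.trans (map_one (inc 1)).symm)
    refine ⟨fun N hN => ?_⟩
    by_cases hN0 : N = ⊥
    · exact Or.inl hN0
    right
    obtain ⟨a, haN, ha1⟩ : ∃ a ∈ N, a ≠ 1 := by
      by_contra hcon
      push Not at hcon
      exact hN0 (eq_bot_iff.2 fun x hx => Subgroup.mem_bot.2 (hcon x hx))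
    rw [eq_top_iff]
    intro b _
    obtain ⟨n, hn⟩ := fg_le_range hcomp hsurj (K := Subgroup.closure {a, b})
      ((Subgroup.fg_iff _).2 ⟨{a, b}, rfl, Set.toFinite _⟩)
    obtain ⟨a₀, ha₀⟩ := hn (Subgroup.subset_closure (by simp : a ∈ ({a, b} : Set H)))
    obtain ⟨b₀, hb₀⟩ := hn (Subgroup.subset_closure (by simp : b ∈ ({a, b} : Set H)))
    have ha₀1 : a₀ ≠ 1 := by
      rintro rfl
      rw [map_one] at ha₀
      exact ha1 ha₀.symm
    obtain ⟨a', b', ha', hb', hab⟩ := exists_normal ha₀1 b₀
    let F : Plus (T n) →* H := inc (n + 1)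
    have hF : Function.Injective F := hinj (n + 1)
    have hpow : ∀ (c₀ : T n) (c' : Plus (T n)) (c : H), inc n c₀ = c →
        (∀ k : ℤ, c' ^ k = 1 ↔ c₀ ^ k = 1) → ∀ k : ℤ, F c' ^ k = 1 ↔ c ^ k = 1 := by
      intro c₀ c' c hc₀ h k
      rw [← map_zpow, map_eq_one_iff F hF, h k, ← hc₀, ← map_zpow,
        map_eq_one_iff (inc n) (hinj n)]
    obtain ⟨y, hy⟩ := hc.conj_of_order (fun k => (hpow a₀ a' a ha₀ ha' k).symm)
    obtain ⟨z, hz⟩ := hc.conj_of_order (fun k => hpow b₀ b' b hb₀ hb' k)
    have h1 : F a' ∈ N := by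
      rw [hy]
      have := hN.conj_mem a haN y⁻¹
      rwa [inv_inv] at this
    have h2 : F b' ∈ N := by
      have h3 : Subgroup.normalClosure {a'} ≤ N.comap F := by
        have : (N.comap F).Normal := hN.comap F
        apply Subgroup.normalClosure_le_normal
        intro x hx
        rw [Set.mem_singleton_iff] at hx
        subst hx
        exact h1
      exact h3 hab
    rw [hz]
    have := hN.conj_mem _ h2 z⁻¹
    rwa [inv_inv] at this
  · -- torsion
    intro n hn hG
    have hT : ∀ k, NT n (T k) := by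
      intro k
      induction k with
      | zero => exact hG
      | succ k ih => exact ih.plus hn
    intro x hx
    obtain ⟨k, x₀, rfl⟩ := hsurj x
    have h1 : x₀ ^ n = 1 := by
      apply hinj k
      rw [map_pow, hx, map_one]
    rw [hT k x₀ h1, map_one]

end Pool.Agent.Helper66.AI
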